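import Mathlib

/-! # MP_6e4a0b_al (Sobolev gap of unitary minimal principal series): definitions

A Lie group is described by its exponential map, a real reductive group by a Cartan
involution and a compact subgroup with polar decomposition, and a minimal parabolic subgroup
by a maximal abelian subspace and a regular element. -/

open Filter Topology Set
open scoped RealInnerProductSpace ContDiff

universe u

namespace Pool.Agent.Helper38.SG

/-- A Lie group `G` with Lie algebra `𝔤` (a finite dimensional real inner product space),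
given by its exponential map `exp`, adjoint representation `Ad` and bracket `br`. The inner
product is a choice; at this stage it is not related to the group. -/
structure LieData (G 𝔤 : Type u) [Group G] [TopologicalSpace G]
    [NormedAddCommGroup 𝔤] [InnerProductSpace ℝ 𝔤] where
  /-- the exponential map -/
  exp : 𝔤 → G
  /-- the adjoint representation -/
  Ad : G →* (𝔤 →ₗ[ℝ] 𝔤)
  /-- the Lie bracket -/
  br : 𝔤 →ₗ[ℝ] 𝔤 →ₗ[ℝ] 𝔤
  continuous_exp : Continuous exp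
  exp_add_smul : ∀ (s t : ℝ) (X : 𝔤), exp ((s + t) • X) = exp (s • X) * exp (t • X)
  /-- `exp` is a homeomorphism from an open neighbourhood of `0` to an open set -/
  exp_chart : ∃ e : OpenPartialHomeomorph 𝔤 G, (0 : 𝔤) ∈ e.source ∧ ∀ X ∈ e.source, e X = exp X
  /-- the multiplication is smooth in the exponential chart near the unit -/
  mul_smooth : ∃ m : 𝔤 × 𝔤 → 𝔤, ContDiffAt ℝ ∞ m (0, 0) ∧ m (0, 0) = 0 ∧
    ∀ᶠ p in 𝓝 ((0, 0) : 𝔤 × 𝔤), exp p.1 * exp p.2 = exp (m p)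
  exp_Ad : ∀ (g : G) (X : 𝔤), exp (Ad g X) = g * exp X * g⁻¹
  continuous_Ad : ∀ X : 𝔤, Continuous fun g : G => Ad g X
  hasDerivAt_Ad : ∀ X Y : 𝔤, HasDerivAt (fun t : ℝ => Ad (exp (t • X)) Y) (br X Y) 0

/-- A real reductive group: Cartan involution `θ`, maximal compact subgroup `K`, an inner
product such that `B(X, Y) = -⟪X, θ Y⟫` is invariant. -/
structure RedData (G 𝔤 : Type u) [Group G] [TopologicalSpace G]
    [NormedAddCommGroup 𝔤] [InnerProductSpace ℝ 𝔤] extends LieData G 𝔤 where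
  /-- the Cartan involution of the Lie algebra -/
  θ : 𝔤 →ₗ[ℝ] 𝔤
  θ_θ : ∀ X, θ (θ X) = X
  θ_isom : ∀ X Y, ⟪θ X, θ Y⟫ = ⟪X, Y⟫
  θ_br : ∀ X Y, θ (br X Y) = br (θ X) (θ Y)
  /-- invariance of the form `B(X, Y) = -⟪X, θ Y⟫` -/
  inv : ∀ X Y Z, ⟪br X Y, Z⟫ = -⟪Y, br (θ X) Z⟫
  /-- the maximal compact subgroup -/
  K : Subgroup G
  isCompact_K : IsCompact (K : Set G)
  Ad_isom : ∀ k ∈ K, ∀ X Y, ⟪Ad k X, Ad k Y⟫ = ⟪X, Y⟫
  Ad_θ : ∀ k ∈ K, ∀ X, Ad k (θ X) = θ (Ad k X)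
  /-- the Lie algebra of `K` is the fixed space of `θ` -/
  exp_mem_K : ∀ X, (∀ t : ℝ, exp (t • X) ∈ K) ↔ θ X = X
  /-- polar decomposition `K × 𝔭 ≃ G` -/
  polar : IsHomeomorph fun x : K × {X : 𝔤 // θ X = -X} => (x.1 : G) * exp (x.2 : 𝔤)

variable {G 𝔤 : Type u} [Group G] [TopologicalSpace G]
  [NormedAddCommGroup 𝔤] [InnerProductSpace ℝ 𝔤]

/-- `α` is a restricted root for the commuting family `𝔞`. -/
def IsRoot (br : 𝔤 →ₗ[ℝ] 𝔤 →ₗ[ℝ] 𝔤) (𝔞 : Submodule ℝ 𝔤) (α : 𝔞 →ₗ[ℝ] ℝ) : Prop :=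
  α ≠ 0 ∧ ∃ X : 𝔤, X ≠ 0 ∧ ∀ H : 𝔞, br H X = α H • X

/-- Positive restricted roots with respect to the regular element `H0`. -/
def IsPosRoot (br : 𝔤 →ₗ[ℝ] 𝔤 →ₗ[ℝ] 𝔤) (𝔞 : Submodule ℝ 𝔤) (H0 : 𝔞) (α : 𝔞 →ₗ[ℝ] ℝ) : Prop :=
  IsRoot br 𝔞 α ∧ 0 < α H0

/-- Simple roots: positive roots that are not a sum of two positive roots. -/
def IsSimpleRoot (br : 𝔤 →ₗ[ℝ] 𝔤 →ₗ[ℝ] 𝔤) (𝔞 : Submodule ℝ 𝔤) (H0 : 𝔞)
    (α : 𝔞 →ₗ[ℝ] ℝ) : Prop :=
  IsPosRoot br 𝔞 H0 α ∧ ∀ β γ, IsPosRoot br 𝔞 H0 β → IsPosRoot br 𝔞 H0 γ → α ≠ β + γ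

/-- A minimal parabolic subgroup of a real reductive group: a maximal abelian subspace `𝔞` of
`𝔭` and a regular element `H0` of `𝔞`, whose Weyl chamber fixes the positive system; together
with an element `X0` of `𝔞` on which all simple roots take the value `1`. -/
structure ParData (G 𝔤 : Type u) [Group G] [TopologicalSpace G]
    [NormedAddCommGroup 𝔤] [InnerProductSpace ℝ 𝔤] extends RedData G 𝔤 where
  /-- the maximal abelian subspace of `𝔭` -/
  𝔞 : Submodule ℝ 𝔤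
  θ_𝔞 : ∀ H ∈ 𝔞, θ H = -H
  br_𝔞 : ∀ H ∈ 𝔞, ∀ H' ∈ 𝔞, br H H' = 0
  𝔞_max : ∀ X, θ X = -X → (∀ H ∈ 𝔞, br H X = 0) → X ∈ 𝔞
  /-- a regular element of `𝔞` -/
  H0 : 𝔞
  H0_reg : ∀ X, br H0 X = 0 → ∀ H ∈ 𝔞, br H X = 0
  /-- the element on which all simple roots are `1` -/
  X0 : 𝔞
  X0_simple : ∀ α, IsSimpleRoot br 𝔞 H0 α → α X0 = 1

namespace ParData

variable (P : ParData G 𝔤)

/-- The Lie algebra of `K`. -/
def 𝔨 : Submodule ℝ 𝔤 := LinearMap.ker (P.θ - LinearMap.id)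

/-- The nilradical: sum of the eigenspaces of `ad H0` with positive eigenvalues. -/
def 𝔫 : Submodule ℝ 𝔤 := ⨆ μ : Set.Ioi (0 : ℝ), Module.End.eigenspace (P.br P.H0) μ

/-- `M`, the centraliser of `𝔞` in `K`. -/
def M : Subgroup G where
  carrier := {k | k ∈ P.K ∧ ∀ H ∈ P.𝔞, P.Ad k H = H}
  mul_mem' {a b} ha hb := ⟨P.K.mul_mem ha.1 hb.1, fun H hH => by
    rw [map_mul, Module.End.mul_apply, hb.2 H hH, ha.2 H hH]⟩
  one_mem' := ⟨P.K.one_mem, fun H _ => by rw [map_one, Module.End.one_apply]⟩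
  inv_mem' {a} ha := ⟨P.K.inv_mem ha.1, fun H hH => by
    conv_lhs => rw [← ha.2 H hH]
    rw [← Module.End.mul_apply, ← map_mul, inv_mul_cancel, map_one, Module.End.one_apply]⟩

variable [FiniteDimensional ℝ 𝔤]

/-- `ρ(H) = ½ tr(ad H | 𝔫)`, as a linear functional on `𝔤` (used on `𝔞` only); here
`𝔫.starProjection` is the orthogonal projection to `𝔫`. -/
noncomputable def ρ : 𝔤 →ₗ[ℝ] ℝ :=
  (1 / 2 : ℝ) • (LinearMap.trace ℝ 𝔤 ∘ₗ
    (LinearMap.llcomp ℝ 𝔤 𝔤 𝔤).flip (P.𝔫.starProjection : 𝔤 →ₗ[ℝ] 𝔤) ∘ₗ P.br)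

theorem ρ_apply (X : 𝔤) : P.ρ X = 1 / 2 *
    LinearMap.trace ℝ 𝔤 (P.br X ∘ₗ (P.𝔫.starProjection : 𝔤 →ₗ[ℝ] 𝔤)) := rfl

/-- The constant `c_𝔤 = ρ(X0)`. -/
noncomputable def c : ℝ := P.ρ P.X0

end ParData

/-- Left translation `(π(g) f)(x) = f(g⁻¹ x)`. -/
def lt {U : Type*} (g : G) (f : G → U) : G → U := fun x => f (g⁻¹ * x)

/-- An irreducible unitary representation `σ` of `M` on the finite dimensional Hilbert space
`U`, and `ν ∈ 𝔞*` (only the restriction of `ν` to `𝔞` is used). -/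
structure RepData (P : ParData G 𝔤) (U : Type u) [NormedAddCommGroup U]
    [InnerProductSpace ℂ U] where
  /-- the representation of `M` -/
  σ : P.M →* (U →ₗ[ℂ] U)
  continuous_σ : ∀ u, Continuous fun m => σ m u
  norm_σ : ∀ m u, ‖σ m u‖ = ‖u‖
  irred : ∀ W : Submodule ℂ U, (∀ m, ∀ w ∈ W, σ m w ∈ W) → W = ⊥ ∨ W = ⊤
  /-- the continuous parameter `λ = i ν` -/
  ν : 𝔤 →ₗ[ℝ] ℝ

variable [FiniteDimensional ℝ 𝔤] {P : ParData G 𝔤}
  {U : Type u} [NormedAddCommGroup U] [InnerProductSpace ℂ U]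

omit [FiniteDimensional ℝ 𝔤] in
/-- `f` is left `K`-finite. -/
def KFinite (P : ParData G 𝔤) {F : Type*} [AddCommGroup F] [Module ℂ F] (f : G → F) : Prop :=
  ∃ W : Submodule ℂ (G → F), FiniteDimensional ℂ W ∧ f ∈ W ∧
    ∀ k ∈ P.K, ∀ w ∈ W, lt k w ∈ W

/-- Equivariance of functions in the induced representation: `f(x p) = σ_λ(p)⁻¹ f(x)` for
`p = m exp(H) exp(X)` in `P = M A N`, `λ = i ν`. -/
structure IndFun (R : RepData P U) (f : G → U) : Prop where
  map_M : ∀ x (m : P.M), f (x * m) = R.σ m⁻¹ (f x)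
  map_A : ∀ x, ∀ H ∈ P.𝔞,
    f (x * P.exp H) = Complex.exp (-(Complex.I * (R.ν H : ℝ) + (P.ρ H : ℝ))) • f x
  map_N : ∀ x, ∀ X ∈ P.𝔫, f (x * P.exp X) = f x

theorem IndFun.add {R : RepData P U} {f g : G → U} (hf : IndFun R f) (hg : IndFun R g) :
    IndFun R (f + g) where
  map_M x m := by simp [hf.map_M, hg.map_M]
  map_A x H hH := by simp [hf.map_A x H hH, hg.map_A x H hH, smul_add]
  map_N x X hX := by simp [hf.map_N x X hX, hg.map_N x X hX]

theorem IndFun.smul {R : RepData P U} {f : G → U} (hf : IndFun R f) (a : ℂ) :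
    IndFun R (a • f) where
  map_M x m := by simp [hf.map_M]
  map_A x H hH := by simp only [Pi.smul_apply, hf.map_A x H hH]; rw [smul_comm]
  map_N x X hX := by simp [hf.map_N x X hX]

theorem IndFun.zero (R : RepData P U) : IndFun R (0 : G → U) where
  map_M x m := by simp
  map_A x H hH := by simp
  map_N x X hX := by simp

section KF
variable {F : Type*} [AddCommGroup F] [Module ℂ F]
omit [TopologicalSpace G]

theorem lt_add (g : G) (f h : G → F) : lt g (f + h) = lt g f + lt g h := rfl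
theorem lt_smul (g : G) (a : ℂ) (f : G → F) : lt g (a • f) = a • lt g f := rfl
omit [AddCommGroup F] [Module ℂ F] in
theorem lt_lt (g g' : G) (f : G → F) : lt g (lt g' f) = lt (g * g') f := by
  funext x; simp [lt, mul_assoc]
omit [AddCommGroup F] [Module ℂ F] in
theorem lt_one (f : G → F) : lt 1 f = f := by funext x; simp [lt]

end KF

theorem IndFun.lt {R : RepData P U} {f : G → U} (hf : IndFun R f) (g : G) :
    IndFun R (SG.lt g f) where
  map_M x m := by simp only [SG.lt, ← mul_assoc, hf.map_M]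
  map_A x H hH := by simp only [SG.lt, ← mul_assoc, hf.map_A _ H hH]
  map_N x X hX := by simp only [SG.lt, ← mul_assoc, hf.map_N _ X hX]

section KF2
variable {F : Type*} [AddCommGroup F] [Module ℂ F]
omit [FiniteDimensional ℝ 𝔤]

theorem KFinite.add {f g : G → F} (hf : KFinite P f) (hg : KFinite P g) :
    KFinite P (f + g) := by
  obtain ⟨W, h1, h2, h3⟩ := hf
  obtain ⟨W', h1', h2', h3'⟩ := hg
  refine ⟨W ⊔ W', inferInstance, Submodule.add_mem_sup h2 h2', fun k hk w hw => ?_⟩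
  obtain ⟨a, ha, b, hb, rfl⟩ := Submodule.mem_sup.1 hw
  exact Submodule.add_mem_sup (h3 k hk a ha) (h3' k hk b hb)

theorem KFinite.smul {f : G → F} (hf : KFinite P f) (a : ℂ) : KFinite P (a • f) := by
  obtain ⟨W, h1, h2, h3⟩ := hf
  exact ⟨W, h1, W.smul_mem a h2, h3⟩

theorem KFinite.zero : KFinite P (0 : G → F) :=
  ⟨⊥, inferInstance, Submodule.zero_mem _, fun k _ w hw => by
    rw [Submodule.mem_bot] at hw ⊢; subst hw; rfl⟩

end KF2

/-- The Harish-Chandra module `V_{σ, iν}` of `K`-finite vectors of the unitary minimal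
principal series. (Continuous functions of this kind are automatically smooth.) -/
def V (R : RepData P U) : Submodule ℂ (G → U) where
  carrier := {f | Continuous f ∧ IndFun R f ∧ KFinite P f}
  add_mem' hf hg := ⟨hf.1.add hg.1, hf.2.1.add hg.2.1, hf.2.2.add hg.2.2⟩
  zero_mem' := ⟨continuous_const, IndFun.zero R, KFinite.zero⟩
  smul_mem' a _ hf := ⟨hf.1.const_smul a, hf.2.1.smul a, hf.2.2.smul a⟩

theorem mem_V {R : RepData P U} {f : G → U} :
    f ∈ V R ↔ Continuous f ∧ IndFun R f ∧ KFinite P f := Iff.rfl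

/-- `f'` is the derivative of `f` under the left regular representation in direction `X`:
`f'(x) = d/dt f(exp(-tX) x)` at `t = 0`. -/
def LDer (P : ParData G 𝔤) (X : 𝔤) (f f' : G → U) : Prop :=
  ∀ x, HasDerivAt (fun t : ℝ => f (P.exp (-(t • X)) * x)) (f' x) 0

/-- `Δ f = g` where `Δ = -∑ Z_i²` is the Casimir operator of `K`, `Z_i` an orthonormal basis of
`𝔨`. On the `K`-type `τ` it is the scalar `|λ_τ + ρ_𝔨|² - |ρ_𝔨|²`. -/
def CasRel (P : ParData G 𝔤) (f g : G → U) : Prop :=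
  ∃ f1 f2 : Fin (Module.finrank ℝ P.𝔨) → G → U,
    (∀ i, LDer P (stdOrthonormalBasis ℝ P.𝔨 i : 𝔤) f (f1 i)) ∧
    (∀ i, LDer P (stdOrthonormalBasis ℝ P.𝔨 i : 𝔤) (f1 i) (f2 i)) ∧ g = -∑ i, f2 i

/-- `D` is the operator `D_s`: on the eigenspace of the Casimir operator of `K` with eigenvalue
`μ` it is the scalar `(1 + μ)^{s/2}`. -/
def IsSob {R : RepData P U} (s : ℝ) (D : V R →ₗ[ℂ] V R) : Prop :=
  ∀ (f : V R) (μ : ℝ), CasRel P (f : G → U) ((μ : ℂ) • (f : G → U)) →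
    D f = (((1 + μ) ^ (s / 2) : ℝ) : ℂ) • f

/-- A vector `v` of a representation `π` of `G` is `K`-finite. -/
def KFin {E : Type u} [NormedAddCommGroup E] [NormedSpace ℂ E] (P : ParData G 𝔤)
    (π : G →* (E →L[ℂ] E)) (v : E) : Prop :=
  ∃ W : Submodule ℂ E, FiniteDimensional ℂ W ∧ v ∈ W ∧ ∀ k ∈ P.K, ∀ w ∈ W, π k w ∈ W

section Glob

variable {E : Type u} [NormedAddCommGroup E] [NormedSpace ℂ E]

/-- The linear map `j : V → E` commutes with the actions of `K`. -/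
def KEquiv (R : RepData P U) (π : G →* (E →L[ℂ] E)) (j : V R →ₗ[ℂ] E) : Prop :=
  ∀ k ∈ P.K, ∀ f f' : V R, lt k (f : G → U) = f' → π k (j f) = j f'

/-- The linear map `j : V → E` commutes with the actions of the Lie algebra `𝔤`. -/
def LEquiv (R : RepData P U) (π : G →* (E →L[ℂ] E)) (j : V R →ₗ[ℂ] E) : Prop :=
  ∀ (X : 𝔤) (f f' : V R), LDer P X (f : G → U) (f' : G → U) →
    HasDerivAt (fun t : ℝ => π (P.exp (t • X)) (j f)) (j f') 0

/-- `π` is a jointly continuous representation by uniformly bounded operators on `E`, which is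
a globalisation of `V`, embedded by `j`, and `p` is the restriction of the norm of `E`. -/
def IsGlob (R : RepData P U) (p : V R → ℝ) (π : G →* (E →L[ℂ] E)) (j : V R →ₗ[ℂ] E) : Prop :=
  (Continuous fun x : G × E => π x.1 x.2) ∧ (∃ C : ℝ, ∀ g v, ‖π g v‖ ≤ C * ‖v‖) ∧
    (∀ f, ‖j f‖ = p f) ∧ Function.Injective j ∧ DenseRange j ∧ KEquiv R π j ∧ LEquiv R π j ∧
    ∀ v : E, KFin P π v → v ∈ LinearMap.range j

end Glob

/-- `p` belongs to `Norm(V)`: `p` is a norm on `V`, and (the completion) `E` carries a bounded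
continuous representation of `G` whose `K`-finite vectors form `V` as a `(𝔤, K)`-module. -/
def IsGNorm (R : RepData P U) (p : V R → ℝ) : Prop :=
  ∃ (E : Type u) (_ : NormedAddCommGroup E) (_ : NormedSpace ℂ E) (_ : CompleteSpace E)
    (π : G →* (E →L[ℂ] E)) (j : V R →ₗ[ℂ] E), IsGlob R p π j

/-- The Sobolev gap `inf {s > 0 : pmax ≲ (pmin)_s}`. -/
noncomputable def gap (R : RepData P U) (pmin pmax : V R → ℝ) : ℝ :=
  sInf {s : ℝ | 0 < s ∧ ∃ D : V R →ₗ[ℂ] V R, IsSob s D ∧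
    ∃ C : ℝ, ∀ f, pmax f ≤ C * pmin (D f)}

end Pool.Agent.Helper38.SG
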