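import Pool.Agent.Helper38.SG.Defs

/-! # Sobolev gap: elementary facts on the exponential map, smooth functions -/

open Filter Topology Set
open scoped RealInnerProductSpace ContDiff

universe u

namespace Pool.Agent.Helper38.SG

variable {G 𝔤 : Type u} [Group G] [TopologicalSpace G]
  [NormedAddCommGroup 𝔤] [InnerProductSpace ℝ 𝔤]

namespace LieData

variable (L : LieData G 𝔤)

theorem exp_zero : L.exp 0 = 1 := by
  have h := L.exp_add_smul 0 0 0
  simp only [add_zero, smul_zero] at h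
  exact (mul_eq_left.1 h.symm)

theorem exp_mul_exp_neg (X : 𝔤) : L.exp X * L.exp (-X) = 1 := by
  have h := L.exp_add_smul 1 (-1) X
  simp only [add_neg_cancel, zero_smul, one_smul, neg_smul, L.exp_zero] at h
  exact h.symm

theorem exp_neg (X : 𝔤) : L.exp (-X) = (L.exp X)⁻¹ :=
  (eq_inv_of_mul_eq_one_right (L.exp_mul_exp_neg X))

theorem exp_nsmul (n : ℕ) (X : 𝔤) : L.exp ((n : ℝ) • X) = L.exp X ^ n := by
  induction n with
  | zero => simp [L.exp_zero]
  | succ n ih =>
    have h := L.exp_add_smul n 1 X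
    rw [one_smul, ih] at h
    rw [pow_succ, ← h]; push_cast; rfl

/-- Smooth functions on `G`. -/
def Smooth {F : Type*} [NormedAddCommGroup F] [NormedSpace ℝ F] (f : G → F) : Prop :=
  ∀ x, ContDiffAt ℝ ∞ (fun X : 𝔤 => f (x * L.exp X)) 0

/-- Right derivative: `rD X f x = d/dt f(x exp(tX))` at `t = 0`. -/
noncomputable def rD {F : Type*} [NormedAddCommGroup F] [NormedSpace ℝ F] (X : 𝔤) (f : G → F) :
    G → F := fun x => fderiv ℝ (fun Y : 𝔤 => f (x * L.exp Y)) 0 X

/-- Left derivative: `lD X f x = d/dt f(exp(-tX) x)` at `t = 0`, for smooth `f`. -/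
noncomputable def lD {F : Type*} [NormedAddCommGroup F] [NormedSpace ℝ F] (X : 𝔤) (f : G → F) :
    G → F := fun x => -L.rD (L.Ad x⁻¹ X) f x

end LieData

theorem ParData.mem_𝔨 (P : ParData G 𝔤) {X : 𝔤} : X ∈ P.𝔨 ↔ P.θ X = X := by
  rw [ParData.𝔨, LinearMap.mem_ker, LinearMap.sub_apply, sub_eq_zero, LinearMap.id_apply]

instance (P : ParData G 𝔤) : CompactSpace P.K := isCompact_iff_compactSpace.1 P.isCompact_K

theorem ParData.exp_mem {P : ParData G 𝔤} (Z : P.𝔨) : P.exp (Z : 𝔤) ∈ P.K := by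
  simpa using (P.exp_mem_K (Z : 𝔤)).2 (P.mem_𝔨.1 Z.2) 1

end Pool.Agent.Helper38.SG
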