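import Mathlib
import Pool.Agent.Helper38.SG.Basic

/-! # Sobolev gap, Casimir operator of K -/

open Filter Topology Set MeasureTheory
open scoped RealInnerProductSpace ContDiff

universe u

namespace Pool.Agent.Helper38.SG

variable {G 𝔤 : Type u} [Group G] [TopologicalSpace G] [IsTopologicalGroup G] [T2Space G]
  [NormedAddCommGroup 𝔤] [InnerProductSpace ℝ 𝔤] [FiniteDimensional ℝ 𝔤] {P : ParData G 𝔤}

/-- the Casimir operator of `K` on smooth functions -/
noncomputable def cas (P : ParData G 𝔤) {F : Type*} [NormedAddCommGroup F] [NormedSpace ℝ F]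
    (f : G → F) : G → F :=
  -∑ i, P.lD (stdOrthonormalBasis ℝ P.𝔨 i : 𝔤) (P.lD (stdOrthonormalBasis ℝ P.𝔨 i : 𝔤) f)

end Pool.Agent.Helper38.SG
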