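import Mathlib
import Pool.Agent.Helper42.SG.LinB

/-! # Sobolev gap, piece LIN-B: restricted root decomposition (pure linear algebra) -/

open Filter Topology Set
open scoped RealInnerProductSpace ContDiff

universe u

namespace Pool.Agent.Helper38.SG

variable {G 𝔤 : Type u} [Group G] [TopologicalSpace G]
  [NormedAddCommGroup 𝔤] [InnerProductSpace ℝ 𝔤] [FiniteDimensional ℝ 𝔤]

namespace ParData

variable (P : ParData G 𝔤)

section B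
variable (hsk : ∀ X, P.br X X = 0)
  (hjac : ∀ X Y Z, P.br X (P.br Y Z) = P.br (P.br X Y) Z + P.br Y (P.br X Z))
include hsk hjac

/-- the unimodularity computation behind the quasi-invariance of the measure on `K` -/
theorem sum_inner_pK {ι : Type*} [Fintype ι] (b : OrthonormalBasis ι ℝ P.𝔨) (W : 𝔤) :
    ∑ i, ⟪(b i : 𝔤), P.pK (P.br (b i : 𝔤) W)⟫ = 2 * P.ρ (P.Ea W) :=
  Pool.Agent.Helper42.SG.sum_inner_pK P hsk hjac b W

/-- `ρ` as defined vanishes on `𝔫` -/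
theorem ρ_𝔫 {X : 𝔤} (hX : X ∈ P.𝔫) : P.ρ X = 0 :=
  Pool.Agent.Helper42.SG.ρ_𝔫 P hsk hjac hX

/-- `ρ` as defined vanishes on `𝔨` -/
theorem ρ_𝔨 {X : 𝔤} (hX : X ∈ P.𝔨) : P.ρ X = 0 :=
  Pool.Agent.Helper42.SG.ρ_𝔨 P hsk hjac hX

theorem sum_br_θ_mem {ι : Type*} [Fintype ι] (e : OrthonormalBasis ι ℝ P.𝔫) :
    ∑ a, P.br (e a : 𝔤) (P.θ (e a : 𝔤)) ∈ P.𝔞 :=
  Pool.Agent.Helper42.SG.sum_br_θ_mem P hsk hjac e

theorem inner_sum_br_θ {ι : Type*} [Fintype ι] (e : OrthonormalBasis ι ℝ P.𝔫) {H : 𝔤}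
    (hH : H ∈ P.𝔞) :
    ⟪∑ a, P.br (e a : 𝔤) (P.θ (e a : 𝔤)), H⟫ = -2 * P.ρ H :=
  Pool.Agent.Helper42.SG.inner_sum_br_θ P hsk hjac e hH

end B

end ParData

end Pool.Agent.Helper38.SG
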