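import Mathlib
import Pool.Agent.Helper41.SG.CalcC

/-! # Sobolev gap, piece CALC-C: left derivatives -/

open Filter Topology Set
open scoped RealInnerProductSpace ContDiff

universe u

namespace Pool.Agent.Helper38.SG

variable {G 𝔤 : Type u} [Group G] [TopologicalSpace G] [IsTopologicalGroup G]
  [NormedAddCommGroup 𝔤] [InnerProductSpace ℝ 𝔤] [FiniteDimensional ℝ 𝔤]

namespace LieData

variable (L : LieData G 𝔤)

variable {F : Type*} [NormedAddCommGroup F] [NormedSpace ℝ F]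


theorem hasDerivAt_lD {f : G → F} (hf : L.Smooth f) (X : 𝔤) (x : G) (t : ℝ) :
    HasDerivAt (fun t : ℝ => f (L.exp (-(t • X)) * x))
      (L.lD X f (L.exp (-(t • X)) * x)) t :=
  Pool.Agent.Helper41.SG.hasDerivAt_lD L hf X x t

theorem Smooth.lD {f : G → F} (hf : L.Smooth f) (X : 𝔤) : L.Smooth (L.lD X f) :=
  Pool.Agent.Helper41.SG.Smooth.lD L hf X

theorem lD_commutator {f : G → F} (hf : L.Smooth f) (X Y : 𝔤) (x : G) :
    L.lD X (L.lD Y f) x - L.lD Y (L.lD X f) x = L.lD (L.br X Y) f x :=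
  Pool.Agent.Helper41.SG.lD_commutator L hf X Y x

/-- second derivatives along one-parameter groups agree -/
theorem lD_lD {f : G → F} (hf : L.Smooth f) (X : 𝔤) (x : G) :
    L.lD X (L.lD X f) x = L.rD (L.Ad x⁻¹ X) (L.rD (L.Ad x⁻¹ X) f) x :=
  Pool.Agent.Helper41.SG.lD_lD L hf X x

theorem lD_comp_mul_right {f : G → F} (hf : L.Smooth f) (X : 𝔤) (g x : G) :
    L.lD X (fun x => f (x * g)) x = L.lD X f (x * g) :=
  Pool.Agent.Helper41.SG.lD_comp_mul_right L hf X g x

/-- `π(g) (X f) = (Ad(g) X) π(g) f` -/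
theorem lt_lD {f : G → F} (X : 𝔤) (g x : G) :
    L.lD X f (g⁻¹ * x) = L.lD (L.Ad g X) (lt g f) x :=
  Pool.Agent.Helper41.SG.lt_lD L X g x

/-- uniform convergence of the difference quotients on compact sets -/
theorem tendstoUniformlyOn_lD {f : G → F} (hf : L.Smooth f) (X : 𝔤) {Q : Set G}
    (hQ : IsCompact Q) :
    TendstoUniformlyOn (fun (t : ℝ) (x : G) => t⁻¹ • (f (L.exp (-(t • X)) * x) - f x))
      (L.lD X f) (𝓝[≠] 0) Q :=
  Pool.Agent.Helper41.SG.tendstoUniformlyOn_lD L hf X hQ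

end LieData

end Pool.Agent.Helper38.SG
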