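import Mathlib
import Pool.Agent.Helper88.SG.CalcD

/-! # Sobolev gap, piece CALC-D: local product decompositions -/

open Filter Topology Set
open scoped RealInnerProductSpace ContDiff

universe u

namespace Pool.Agent.Helper38.SG

variable {G 𝔤 : Type u} [Group G] [TopologicalSpace G] [IsTopologicalGroup G]
  [NormedAddCommGroup 𝔤] [InnerProductSpace ℝ 𝔤] [FiniteDimensional ℝ 𝔤]

namespace LieData

variable (L : LieData G 𝔤)

/-- If `∑ T = 1` then near the unit every `exp X` is the product of the `exp (T (z X))` with `z`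
smooth, `z 0 = 0`, `z' (0) = 1`. -/
theorem exists_prod_coord (T : List (𝔤 →L[ℝ] 𝔤)) (hT : T.sum = ContinuousLinearMap.id ℝ 𝔤) :
    ∃ z : 𝔤 → 𝔤, ContDiffAt ℝ ∞ z 0 ∧ z 0 = 0 ∧
      HasFDerivAt z (ContinuousLinearMap.id ℝ 𝔤) 0 ∧
      ∀ᶠ X in 𝓝 (0 : 𝔤), L.exp X = (T.map fun T => L.exp (T (z X))).prod :=
  Pool.Agent.Helper88.SG.exists_prod_coord L T hT

/-- `exp` maps neighbourhoods of `0` onto neighbourhoods of `1`. -/
theorem map_exp_nhds_zero : map L.exp (𝓝 0) = 𝓝 1 :=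
  Pool.Agent.Helper88.SG.map_exp_nhds_zero L

end LieData

end Pool.Agent.Helper38.SG
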