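import Mathlib
import Pool.Agent.Helper87.SG.CalcA

/-! # Sobolev gap, piece CALC-A: adjoint representation -/

open Filter Topology Set
open scoped RealInnerProductSpace ContDiff

universe u

namespace Pool.Agent.Helper38.SG

variable {G 𝔤 : Type u} [Group G] [TopologicalSpace G] [IsTopologicalGroup G]
  [NormedAddCommGroup 𝔤] [InnerProductSpace ℝ 𝔤] [FiniteDimensional ℝ 𝔤]

namespace LieData

variable (L : LieData G 𝔤)

theorem Ad_exp (X Y : 𝔤) : L.Ad (L.exp X) Y =
    NormedSpace.exp (LinearMap.toContinuousLinearMap (L.br X)) Y :=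
  Pool.Agent.Helper87.SG.Ad_exp L X Y

theorem Ad_br (g : G) (X Y : 𝔤) : L.Ad g (L.br X Y) = L.br (L.Ad g X) (L.Ad g Y) :=
  Pool.Agent.Helper87.SG.Ad_br L g X Y

theorem br_self (X : 𝔤) : L.br X X = 0 :=
  Pool.Agent.Helper87.SG.br_self L X

theorem jacobi (X Y Z : 𝔤) :
    L.br X (L.br Y Z) = L.br (L.br X Y) Z + L.br Y (L.br X Z) :=
  Pool.Agent.Helper87.SG.jacobi L X Y Z

/-- joint continuity of `Ad` -/
theorem continuous_Ad_uncurry : Continuous fun p : G × 𝔤 => L.Ad p.1 p.2 :=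
  Pool.Agent.Helper87.SG.continuous_Ad_uncurry L

end LieData

end Pool.Agent.Helper38.SG
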