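import Mathlib
import Pool.Agent.Helper67.SG.CalcE

/-! # Sobolev gap, piece CALC-E: commuting exponentials -/

open Filter Topology Set
open scoped RealInnerProductSpace ContDiff

universe u

namespace Pool.Agent.Helper38.SG

variable {G 𝔤 : Type u} [Group G] [TopologicalSpace G] [IsTopologicalGroup G] [T2Space G]
  [NormedAddCommGroup 𝔤] [InnerProductSpace ℝ 𝔤] [FiniteDimensional ℝ 𝔤]

namespace LieData

variable (L : LieData G 𝔤)

theorem tendsto_trotter (X Y : 𝔤) :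
    Tendsto (fun n : ℕ => (L.exp ((n : ℝ)⁻¹ • X) * L.exp ((n : ℝ)⁻¹ • Y)) ^ n) atTop
      (𝓝 (L.exp (X + Y))) :=
  Pool.Agent.Helper67.SG.tendsto_trotter L X Y

theorem exp_add_of_comm {X Y : 𝔤} (h : L.br X Y = 0) :
    L.exp (X + Y) = L.exp X * L.exp Y :=
  Pool.Agent.Helper67.SG.exp_add_of_comm L h

theorem Ad_exp_mem (W : Submodule ℝ 𝔤) {X : 𝔤} (h : ∀ Y ∈ W, L.br X Y ∈ W) {Y : 𝔤} (hY : Y ∈ W) :
    L.Ad (L.exp X) Y ∈ W :=
  Pool.Agent.Helper67.SG.Ad_exp_mem L W h hY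

theorem Ad_exp_eq_self {X Y : 𝔤} (h : L.br X Y = 0) : L.Ad (L.exp X) Y = Y :=
  Pool.Agent.Helper67.SG.Ad_exp_eq_self L h

end LieData

end Pool.Agent.Helper38.SG
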