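import Mathlib
import Pool.Agent.Helper38.SG.Defs

/-! # Sobolev gap, Iwasawa projections -/

open Filter Topology Set
open scoped RealInnerProductSpace ContDiff

universe u

namespace Pool.Agent.Helper38.SG

variable {G 𝔤 : Type u} [Group G] [TopologicalSpace G]
  [NormedAddCommGroup 𝔤] [InnerProductSpace ℝ 𝔤] [FiniteDimensional ℝ 𝔤]

namespace ParData

variable (P : ParData G 𝔤)

/-- orthogonal projection to `𝔫` -/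
noncomputable def En : 𝔤 →L[ℝ] 𝔤 := P.𝔫.starProjection

/-- orthogonal projection to `θ 𝔫` -/
noncomputable def Enb : 𝔤 →L[ℝ] 𝔤 :=
  LinearMap.toContinuousLinearMap (P.θ ∘ₗ (P.En : 𝔤 →ₗ[ℝ] 𝔤) ∘ₗ P.θ)

/-- orthogonal projection to `𝔞` -/
noncomputable def Ea : 𝔤 →L[ℝ] 𝔤 := P.𝔞.starProjection

/-- `𝔪`, the centraliser of `𝔞` in `𝔨` -/
def 𝔪 : Submodule ℝ 𝔤 := P.𝔨 ⊓ LinearMap.ker (P.br P.H0)

/-- orthogonal projection to `𝔪` -/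
noncomputable def Em : 𝔤 →L[ℝ] 𝔤 := P.𝔪.starProjection

/-- Iwasawa projection to `𝔨` along `𝔞 ⊕ 𝔫` -/
noncomputable def pK : 𝔤 →L[ℝ] 𝔤 :=
  P.Em + P.Enb + LinearMap.toContinuousLinearMap ((P.En : 𝔤 →ₗ[ℝ] 𝔤) ∘ₗ P.θ)

/-- Iwasawa projection to `𝔫` along `𝔨 ⊕ 𝔞` -/
noncomputable def pN : 𝔤 →L[ℝ] 𝔤 :=
  P.En - LinearMap.toContinuousLinearMap ((P.En : 𝔤 →ₗ[ℝ] 𝔤) ∘ₗ P.θ)

end ParData

end Pool.Agent.Helper38.SG
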