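import Mathlib
import Pool.Agent.Helper51.SG.LinA

/-! # Sobolev gap, piece LIN-A1: restricted root decomposition (pure linear algebra) -/

open Filter Topology Set
open scoped RealInnerProductSpace ContDiff

universe u

namespace Pool.Agent.Helper38.SG

variable {G 𝔤 : Type u} [Group G] [TopologicalSpace G]
  [NormedAddCommGroup 𝔤] [InnerProductSpace ℝ 𝔤] [FiniteDimensional ℝ 𝔤]

namespace ParData

variable (P : ParData G 𝔤)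

section A
variable (hsk : ∀ X, P.br X X = 0)
  (hjac : ∀ X Y Z, P.br X (P.br Y Z) = P.br (P.br X Y) Z + P.br Y (P.br X Z))

include hsk in
theorem br_skew (X Y : 𝔤) : P.br X Y = -P.br Y X := by
  have h := hsk (X + Y)
  simp only [map_add, LinearMap.add_apply, hsk, zero_add, add_zero] at h
  exact eq_neg_of_add_eq_zero_right h

theorem ad_symm {H : 𝔤} (hH : H ∈ P.𝔞) (X Y : 𝔤) : ⟪P.br H X, Y⟫ = ⟪X, P.br H Y⟫ :=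
  Pool.Agent.Helper51.SG.ad_symm P hH X Y

theorem ad_skew {Z : 𝔤} (hZ : Z ∈ P.𝔨) (X Y : 𝔤) : ⟪P.br Z X, Y⟫ = -⟪X, P.br Z Y⟫ :=
  Pool.Agent.Helper51.SG.ad_skew P hZ X Y

include hsk hjac

/-- `𝔪 ⊕ 𝔞` is the centraliser of `𝔞`, equal to the kernel of `ad H0` -/
theorem ker_H0 (X : 𝔤) : P.br P.H0 X = 0 ↔ X = P.Em X + P.Ea X :=
  Pool.Agent.Helper51.SG.ker_H0 P hsk hjac X

theorem decomp (X : 𝔤) : X = P.Enb X + P.Em X + P.Ea X + P.En X :=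
  Pool.Agent.Helper51.SG.decomp P hsk hjac X

theorem iwasawa_decomp (X : 𝔤) : X = P.pK X + P.Ea X + P.pN X :=
  Pool.Agent.Helper51.SG.iwasawa_decomp P hsk hjac X

theorem pK_mem (X : 𝔤) : P.pK X ∈ P.𝔨 :=
  Pool.Agent.Helper51.SG.pK_mem P hsk hjac X

theorem pN_mem (X : 𝔤) : P.pN X ∈ P.𝔫 :=
  Pool.Agent.Helper51.SG.pN_mem P hsk hjac X

theorem pK_of_mem {X : 𝔤} (hX : X ∈ P.𝔨) : P.pK X = X :=
  Pool.Agent.Helper51.SG.pK_of_mem P hsk hjac hX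

theorem inner_𝔞_𝔫 {H X : 𝔤} (hH : H ∈ P.𝔞) (hX : X ∈ P.𝔫) : ⟪H, X⟫ = 0 :=
  Pool.Agent.Helper51.SG.inner_𝔞_𝔫 P hsk hjac hH hX

/-- `[𝔪 ⊕ 𝔞, 𝔫] ⊆ 𝔫` -/
theorem br_ker_𝔫 {X Y : 𝔤} (hX : P.br P.H0 X = 0) (hY : Y ∈ P.𝔫) : P.br X Y ∈ P.𝔫 :=
  Pool.Agent.Helper51.SG.br_ker_𝔫 P hsk hjac hX hY

theorem br_𝔫_𝔫 {X Y : 𝔤} (hX : X ∈ P.𝔫) (hY : Y ∈ P.𝔫) : P.br X Y ∈ P.𝔫 :=
  Pool.Agent.Helper51.SG.br_𝔫_𝔫 P hsk hjac hX hY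

/-- `ad X` is nilpotent for `X ∈ 𝔫` -/
theorem nilpotent_ad {X : 𝔤} (hX : X ∈ P.𝔫) : IsNilpotent (P.br X) :=
  Pool.Agent.Helper51.SG.nilpotent_ad P hsk hjac hX

/-- `𝔫 ∋ X ↦ e^{ad X} H0` is injective at `0` -/
theorem exp_ad_H0 {X : 𝔤} (hX : X ∈ P.𝔫) :
    (NormedSpace.exp (LinearMap.toContinuousLinearMap (P.br X)) (P.H0 : 𝔤) - P.H0 ∈ P.𝔫) ∧
    (NormedSpace.exp (LinearMap.toContinuousLinearMap (P.br X)) (P.H0 : 𝔤) = P.H0 → X = 0) :=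
  Pool.Agent.Helper51.SG.exp_ad_H0 P hsk hjac hX

end A

end ParData

end Pool.Agent.Helper38.SG
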