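import Mathlib
import Pool.Agent.Helper65.SG.Iwa

/-! # Sobolev gap, piece IWA: Iwasawa decomposition -/

open Filter Topology Set
open scoped RealInnerProductSpace ContDiff

universe u

namespace Pool.Agent.Helper38.SG

variable {G 𝔤 : Type u} [Group G] [TopologicalSpace G] [IsTopologicalGroup G] [T2Space G]
  [NormedAddCommGroup 𝔤] [InnerProductSpace ℝ 𝔤] [FiniteDimensional ℝ 𝔤]

namespace ParData

variable (P : ParData G 𝔤)

/-- `exp 𝔫` is closed under multiplication. -/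
theorem exp_𝔫_mul {X Y : 𝔤} (hX : X ∈ P.𝔫) (hY : Y ∈ P.𝔫) :
    ∃ Z ∈ P.𝔫, P.exp X * P.exp Y = P.exp Z :=
  Pool.Agent.Helper65.SG.exp_𝔫_mul P hX hY

theorem exists_iwasawa : ∃ (κ : G → G) (η : G → 𝔤), Continuous κ ∧ Continuous η ∧
    (∀ x, κ x ∈ P.K) ∧ (∀ x, η x ∈ P.𝔞) ∧
    (∀ x, ∃ X ∈ P.𝔫, x = κ x * P.exp (η x) * P.exp X) ∧
    (∀ k ∈ P.K, ∀ H ∈ P.𝔞, ∀ X ∈ P.𝔫, κ (k * P.exp H * P.exp X) = k ∧
      η (k * P.exp H * P.exp X) = H) :=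
  Pool.Agent.Helper65.SG.exists_iwasawa P

end ParData

end Pool.Agent.Helper38.SG
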