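import Mathlib
import Pool.Agent.Helper38.SG.Iwa

/-! # Sobolev gap: Iwasawa projections `κ`, `η` -/

open Filter Topology Set
open scoped RealInnerProductSpace ContDiff

universe u

namespace Pool.Agent.Helper38.SG

variable {G 𝔤 : Type u} [Group G] [TopologicalSpace G] [IsTopologicalGroup G] [T2Space G]
  [NormedAddCommGroup 𝔤] [InnerProductSpace ℝ 𝔤] [FiniteDimensional ℝ 𝔤]

namespace ParData

variable (P : ParData G 𝔤)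

/-- the Iwasawa projection `G → K` -/
noncomputable def κ : G → G := P.exists_iwasawa.choose

/-- the Iwasawa projection `G → 𝔞` -/
noncomputable def η : G → 𝔤 := P.exists_iwasawa.choose_spec.choose

theorem continuous_κ : Continuous P.κ := P.exists_iwasawa.choose_spec.choose_spec.1
theorem continuous_η : Continuous P.η := P.exists_iwasawa.choose_spec.choose_spec.2.1
theorem κ_mem (x : G) : P.κ x ∈ P.K := P.exists_iwasawa.choose_spec.choose_spec.2.2.1 x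
theorem η_mem (x : G) : P.η x ∈ P.𝔞 := P.exists_iwasawa.choose_spec.choose_spec.2.2.2.1 x
theorem exists_𝔫 (x : G) : ∃ X ∈ P.𝔫, x = P.κ x * P.exp (P.η x) * P.exp X :=
  P.exists_iwasawa.choose_spec.choose_spec.2.2.2.2.1 x
theorem κ_mk {k : G} (hk : k ∈ P.K) {H : 𝔤} (hH : H ∈ P.𝔞) {X : 𝔤} (hX : X ∈ P.𝔫) :
    P.κ (k * P.exp H * P.exp X) = k :=
  (P.exists_iwasawa.choose_spec.choose_spec.2.2.2.2.2 k hk H hH X hX).1
theorem η_mk {k : G} (hk : k ∈ P.K) {H : 𝔤} (hH : H ∈ P.𝔞) {X : 𝔤} (hX : X ∈ P.𝔫) :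
    P.η (k * P.exp H * P.exp X) = H :=
  (P.exists_iwasawa.choose_spec.choose_spec.2.2.2.2.2 k hk H hH X hX).2

theorem exp_add_𝔞 {H H' : 𝔤} (hH : H ∈ P.𝔞) (hH' : H' ∈ P.𝔞) :
    P.exp (H + H') = P.exp H * P.exp H' :=
  P.exp_add_of_comm (P.br_𝔞 H hH H' hH')

theorem br_H0_𝔞 {H : 𝔤} (hH : H ∈ P.𝔞) : P.br P.H0 H = 0 := P.br_𝔞 _ P.H0.2 _ hH

theorem Ad_exp_𝔫 {H : 𝔤} (hH : H ∈ P.𝔞) {X : 𝔤} (hX : X ∈ P.𝔫) :
    P.Ad (P.exp H) X ∈ P.𝔫 :=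
  P.Ad_exp_mem P.𝔫 (fun _ hY => P.br_ker_𝔫 P.br_self P.jacobi (P.br_H0_𝔞 hH) hY) hX

theorem Ad_M_𝔫 {m : G} (hm : m ∈ P.M) {X : 𝔤} (hX : X ∈ P.𝔫) : P.Ad m X ∈ P.𝔫 := by
  have key : ∀ μ : Set.Ioi (0 : ℝ), ∀ Y ∈ Module.End.eigenspace (P.br P.H0) μ,
      P.Ad m Y ∈ Module.End.eigenspace (P.br P.H0) μ := by
    intro μ Y hY
    rw [Module.End.mem_eigenspace_iff] at hY ⊢
    rw [← map_smul, ← hY, P.Ad_br, hm.2 _ P.H0.2]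
  have : P.𝔫 ≤ P.𝔫.comap (P.Ad m) := by
    unfold 𝔫
    refine iSup_le fun μ Y hY => ?_
    exact Submodule.mem_iSup_of_mem (p := fun μ : Set.Ioi (0 : ℝ) =>
      Module.End.eigenspace (P.br P.H0) (μ : ℝ)) μ (key μ Y hY)
  exact this hX

theorem κ_mul_exp_𝔫 (x : G) {X : 𝔤} (hX : X ∈ P.𝔫) : P.κ (x * P.exp X) = P.κ x := by
  obtain ⟨Y, hY, hx⟩ := P.exists_𝔫 x
  obtain ⟨Z, hZ, h⟩ := P.exp_𝔫_mul hY hX
  conv_lhs => rw [hx, mul_assoc, h]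
  exact P.κ_mk (P.κ_mem x) (P.η_mem x) hZ

theorem η_mul_exp_𝔫 (x : G) {X : 𝔤} (hX : X ∈ P.𝔫) : P.η (x * P.exp X) = P.η x := by
  obtain ⟨Y, hY, hx⟩ := P.exists_𝔫 x
  obtain ⟨Z, hZ, h⟩ := P.exp_𝔫_mul hY hX
  conv_lhs => rw [hx, mul_assoc, h]
  exact P.η_mk (P.κ_mem x) (P.η_mem x) hZ

theorem mul_exp_𝔞_aux (x : G) {H : 𝔤} (hH : H ∈ P.𝔞) :
    ∃ Y ∈ P.𝔫, x * P.exp H = P.κ x * P.exp (P.η x + H) * P.exp Y := by
  obtain ⟨Y, hY, hx⟩ := P.exists_𝔫 x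
  refine ⟨P.Ad (P.exp (-H)) Y, P.Ad_exp_𝔫 (neg_mem hH) hY, ?_⟩
  rw [P.exp_add_𝔞 (P.η_mem x) hH, P.exp_Ad, P.exp_neg, inv_inv]
  conv_lhs => rw [hx]
  group

theorem κ_mul_exp_𝔞 (x : G) {H : 𝔤} (hH : H ∈ P.𝔞) : P.κ (x * P.exp H) = P.κ x := by
  obtain ⟨Y, hY, h⟩ := P.mul_exp_𝔞_aux x hH
  rw [h]; exact P.κ_mk (P.κ_mem x) (add_mem (P.η_mem x) hH) hY

theorem η_mul_exp_𝔞 (x : G) {H : 𝔤} (hH : H ∈ P.𝔞) : P.η (x * P.exp H) = P.η x + H := by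
  obtain ⟨Y, hY, h⟩ := P.mul_exp_𝔞_aux x hH
  rw [h]; exact P.η_mk (P.κ_mem x) (add_mem (P.η_mem x) hH) hY

theorem mul_K_aux {k : G} (_hk : k ∈ P.K) (x : G) :
    ∃ Y ∈ P.𝔫, k * x = (k * P.κ x) * P.exp (P.η x) * P.exp Y := by
  obtain ⟨Y, hY, hx⟩ := P.exists_𝔫 x
  refine ⟨Y, hY, ?_⟩
  conv_lhs => rw [hx]
  group

theorem κ_mul_left {k : G} (hk : k ∈ P.K) (x : G) : P.κ (k * x) = k * P.κ x := by
  obtain ⟨Y, hY, h⟩ := P.mul_K_aux hk x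
  rw [h]; exact P.κ_mk (mul_mem hk (P.κ_mem x)) (P.η_mem x) hY

theorem η_mul_left {k : G} (hk : k ∈ P.K) (x : G) : P.η (k * x) = P.η x := by
  obtain ⟨Y, hY, h⟩ := P.mul_K_aux hk x
  rw [h]; exact P.η_mk (mul_mem hk (P.κ_mem x)) (P.η_mem x) hY

theorem mul_M_aux (x : G) {m : G} (hm : m ∈ P.M) :
    ∃ Y ∈ P.𝔫, x * m = (P.κ x * m) * P.exp (P.η x) * P.exp Y := by
  obtain ⟨Y, hY, hx⟩ := P.exists_𝔫 x
  refine ⟨P.Ad m⁻¹ Y, P.Ad_M_𝔫 (inv_mem hm) hY, ?_⟩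
  have h1 : P.exp (P.η x) = m⁻¹ * P.exp (P.η x) * m := by
    have := P.exp_Ad m⁻¹ (P.η x)
    rw [(inv_mem hm : m⁻¹ ∈ P.M).2 _ (P.η_mem x), inv_inv] at this
    exact this
  rw [P.exp_Ad, inv_inv]
  conv_rhs => rw [h1]
  conv_lhs => rw [hx]
  group

theorem κ_mul_M (x : G) {m : G} (hm : m ∈ P.M) : P.κ (x * m) = P.κ x * m := by
  obtain ⟨Y, hY, h⟩ := P.mul_M_aux x hm
  rw [h]; exact P.κ_mk (mul_mem (P.κ_mem x) hm.1) (P.η_mem x) hY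

theorem η_mul_M (x : G) {m : G} (hm : m ∈ P.M) : P.η (x * m) = P.η x := by
  obtain ⟨Y, hY, h⟩ := P.mul_M_aux x hm
  rw [h]; exact P.η_mk (mul_mem (P.κ_mem x) hm.1) (P.η_mem x) hY

theorem κ_of_mem {k : G} (hk : k ∈ P.K) : P.κ k = k := by
  have := P.κ_mk hk (zero_mem P.𝔞) (zero_mem P.𝔫)
  rwa [P.exp_zero, mul_one, mul_one] at this

theorem η_of_mem {k : G} (hk : k ∈ P.K) : P.η k = 0 := by
  have := P.η_mk hk (zero_mem P.𝔞) (zero_mem P.𝔫)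
  rwa [P.exp_zero, mul_one, mul_one] at this

end ParData

/-- an induced function is determined by its restriction to `K` -/
theorem IndFun.apply_eq {P : ParData G 𝔤} {U : Type u} [NormedAddCommGroup U]
    [InnerProductSpace ℂ U] {R : RepData P U} {f : G → U} (hf : IndFun R f) (x : G) :
    f x = Complex.exp (-(Complex.I * (R.ν (P.η x) : ℝ) + (P.ρ (P.η x) : ℝ))) • f (P.κ x) := by
  obtain ⟨X, hX, hx⟩ := P.exists_𝔫 x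
  conv_lhs => rw [hx, hf.map_N _ X hX, hf.map_A _ _ (P.η_mem x)]

theorem IndFun.norm_eq {P : ParData G 𝔤} {U : Type u} [NormedAddCommGroup U]
    [InnerProductSpace ℂ U] {R : RepData P U} {f : G → U} (hf : IndFun R f) (x : G) :
    ‖f x‖ = Real.exp (-P.ρ (P.η x)) * ‖f (P.κ x)‖ := by
  rw [hf.apply_eq x, norm_smul, Complex.norm_exp]
  congr 2
  simp

end Pool.Agent.Helper38.SG
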