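import Mathlib
import Pool.Agent.Helper54.SG.RepB

/-! # Sobolev gap, piece REP2 -/

open Filter Topology Set MeasureTheory
open scoped RealInnerProductSpace ContDiff

universe u

namespace Pool.Agent.Helper38.SG

/-- REP2: a continuous left `K`-finite function is smooth along `K`-orbits. -/
theorem kfinite_smooth {G 𝔤 : Type u} [Group G] [TopologicalSpace G] [IsTopologicalGroup G]
    [NormedAddCommGroup 𝔤] [InnerProductSpace ℝ 𝔤] [FiniteDimensional ℝ 𝔤] (P : ParData G 𝔤)
    {F : Type*} [NormedAddCommGroup F] [NormedSpace ℂ F] [FiniteDimensional ℂ F]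
    (f : G → F) (hf : Continuous f) (hK : KFinite P f) (x : G) :
    ContDiff ℝ ∞ fun Z : P.𝔨 => f (P.exp (Z : 𝔤) * x) :=
  Pool.Agent.Helper54.SG.kfinite_smooth P f hf hK x

end Pool.Agent.Helper38.SG
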