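import Mathlib
import Pool.Agent.Helper65.SG.SmoB

/-! # Sobolev gap, piece SMO-B: smoothness of `K`-finite induced functions -/

open Filter Topology Set
open scoped RealInnerProductSpace ContDiff

universe u

namespace Pool.Agent.Helper38.SG

variable {G 𝔤 : Type u} [Group G] [TopologicalSpace G] [IsTopologicalGroup G] [T2Space G]
  [NormedAddCommGroup 𝔤] [InnerProductSpace ℝ 𝔤] [FiniteDimensional ℝ 𝔤] {P : ParData G 𝔤}

variable {U : Type u} [NormedAddCommGroup U] [InnerProductSpace ℂ U] {R : RepData P U}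

/-- SMO-B -/
theorem lDer_iff {f : G → U} (hf : P.Smooth f) (X : 𝔤) (g : G → U) :
    LDer P X f g ↔ g = P.lD X f :=
  Pool.Agent.Helper65.SG.lDer_iff hf X g

/-- SMO-B -/
theorem IndFun.lD {f : G → U} (hs : P.Smooth f) (hf : IndFun R f) (X : 𝔤) :
    IndFun R (P.lD X f) :=
  Pool.Agent.Helper65.SG.IndFun.lD hs hf X

variable [FiniteDimensional ℂ U]

/-- SMO-B (from SMO-A) -/
theorem smooth_of_mem_V {f : G → U} (hf : f ∈ V R) : P.Smooth f :=
  Pool.Agent.Helper65.SG.smooth_of_mem_V hf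

/-- SMO-B: `V` is stable under the Lie algebra -/
theorem lD_mem_V {f : G → U} (hf : f ∈ V R) (X : 𝔤) : P.lD X f ∈ V R :=
  Pool.Agent.Helper65.SG.lD_mem_V hf X

/-- SMO-B: linearity of the Lie algebra action -/
theorem lD_add_left {F : Type*} [NormedAddCommGroup F] [NormedSpace ℝ F] (X Y : 𝔤) (f : G → F) :
    P.lD (X + Y) f = P.lD X f + P.lD Y f :=
  Pool.Agent.Helper65.SG.lD_add_left X Y f

theorem lD_smul_left {F : Type*} [NormedAddCommGroup F] [NormedSpace ℝ F] (a : ℝ) (X : 𝔤)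
    (f : G → F) : P.lD (a • X) f = a • P.lD X f :=
  Pool.Agent.Helper65.SG.lD_smul_left a X f

theorem lD_add {F : Type*} [NormedAddCommGroup F] [NormedSpace ℝ F] (X : 𝔤) {f g : G → F}
    (hf : P.Smooth f) (hg : P.Smooth g) : P.lD X (f + g) = P.lD X f + P.lD X g :=
  Pool.Agent.Helper65.SG.lD_add X hf hg

theorem lD_smul {F : Type*} [NormedAddCommGroup F] [NormedSpace ℂ F] (X : 𝔤) (a : ℂ)
    {f : G → F} (hf : P.Smooth f) : P.lD X (a • f) = a • P.lD X f :=
  Pool.Agent.Helper65.SG.lD_smul X a hf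

end Pool.Agent.Helper38.SG
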