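import Mathlib
import Pool.Agent.Helper38.SG.Defs

/-! # Sobolev gap: averaging kernels -/

open Filter Topology Set MeasureTheory

universe u

namespace Pool.Agent.Helper38.SG

variable {G 𝔤 : Type u} [Group G] [TopologicalSpace G]
  [NormedAddCommGroup 𝔤] [InnerProductSpace ℝ 𝔤] {P : ParData G 𝔤} [MeasurableSpace P.K]

/-- kernel functions on `K` of finite rank -/
def FinRank (P : ParData G 𝔤) (φ : P.K → ℝ) : Prop :=
  ∃ (n : ℕ) (a b : Fin n → P.K → ℝ), (∀ i, Continuous (a i)) ∧ (∀ i, Continuous (b i)) ∧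
    ∀ k l, φ (k * l) = ∑ i, a i k * b i l

/-- good averaging kernels -/
structure Kernel (μ : Measure P.K) (φ : P.K → ℝ) : Prop where
  cont : Continuous φ
  nonneg : ∀ k, 0 ≤ φ k
  int_one : ∫ k, φ k ∂μ = 1
  symm : ∀ k, φ k⁻¹ = φ k
  rank : FinRank P φ

end Pool.Agent.Helper38.SG
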