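import Mathlib
import Pool.Agent.Helper38.SG.Defs

/-! # Sobolev gap, the pairing -/

open Filter Topology Set MeasureTheory
open scoped RealInnerProductSpace ContDiff

universe u

namespace Pool.Agent.Helper38.SG

variable {G 𝔤 : Type u} [Group G] [TopologicalSpace G] [IsTopologicalGroup G] [T2Space G]
  [NormedAddCommGroup 𝔤] [InnerProductSpace ℝ 𝔤] [FiniteDimensional ℝ 𝔤] {P : ParData G 𝔤}
  [MeasurableSpace P.K] [BorelSpace P.K] (μ : Measure P.K)

variable {U : Type u} [NormedAddCommGroup U] [InnerProductSpace ℂ U]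

/-- the pairing `∫_K ⟪h(k), f(k)⟫ dk` -/
noncomputable def pair (h f : G → U) : ℂ := ∫ k : P.K, inner ℂ (h k) (f k) ∂μ

end Pool.Agent.Helper38.SG
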