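import Mathlib
import Pool.Agent.Helper38.SG.PairDefs
import Pool.Agent.Helper41.SG.InvB

/-! # Sobolev gap, piece INV-B: translation of integrals over `K`, the invariant pairing -/

open Filter Topology Set MeasureTheory
open scoped RealInnerProductSpace ContDiff

universe u

namespace Pool.Agent.Helper38.SG

variable {G 𝔤 : Type u} [Group G] [TopologicalSpace G] [IsTopologicalGroup G] [T2Space G]
  [NormedAddCommGroup 𝔤] [InnerProductSpace ℝ 𝔤] [FiniteDimensional ℝ 𝔤] {P : ParData G 𝔤}
  [MeasurableSpace P.K] [BorelSpace P.K] (μ : Measure P.K) [IsProbabilityMeasure μ]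
  [μ.IsMulLeftInvariant] [μ.IsMulRightInvariant]

variable {U : Type u} [NormedAddCommGroup U] [InnerProductSpace ℂ U]

/-- INV-B: invariance of the pairing of two smooth induced functions -/
theorem pair_lt {R : RepData P U} {h f : G → U} (hh : IndFun R h) (hf : IndFun R f)
    (hhs : P.Smooth h) (hfs : P.Smooth f) (g : G) :
    pair μ (lt g h) (lt g f) = pair μ h f :=
  Pool.Agent.Helper41.SG.pair_lt μ hh hf hhs hfs g

/-- INV-B: elements of `K` are easier -/
theorem pair_lt_K {h f : G → U} {k : G} (hk : k ∈ P.K) :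
    pair μ (lt k h) (lt k f) = pair μ h f :=
  Pool.Agent.Helper41.SG.pair_lt_K μ hk

end Pool.Agent.Helper38.SG
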