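import Mathlib
import Pool.Agent.Helper38.SG.CasDefs
import Pool.Agent.Helper38.SG.SmoB

/-! # Sobolev gap: `V` as a `(𝔤, K)`-module -/

open Filter Topology Set MeasureTheory
open scoped RealInnerProductSpace ContDiff

universe u

namespace Pool.Agent.Helper38.SG

variable {G 𝔤 : Type u} [Group G] [TopologicalSpace G] [IsTopologicalGroup G] [T2Space G]
  [NormedAddCommGroup 𝔤] [InnerProductSpace ℝ 𝔤] [FiniteDimensional ℝ 𝔤] {P : ParData G 𝔤}
  {U : Type u} [NormedAddCommGroup U] [InnerProductSpace ℂ U]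
  {R : RepData P U}

theorem KFinite.lt {f : G → U} (hf : KFinite P f) {k : G} (hk : k ∈ P.K) :
    KFinite P (SG.lt k f) := by
  obtain ⟨W, h1, h2, h3⟩ := hf
  exact ⟨W, h1, h3 k hk _ h2, h3⟩

theorem lt_mem_V {f : G → U} (hf : f ∈ V R) {k : G} (hk : k ∈ P.K) : lt k f ∈ V R :=
  ⟨hf.1.comp (continuous_const.mul continuous_id), hf.2.1.lt k, hf.2.2.lt hk⟩

/-- action of `K` on `V` -/
def kact (R : RepData P U) : P.K →* (V R →ₗ[ℂ] V R) where
  toFun k :=
    { toFun := fun f => ⟨lt (k : G) (f : G → U), lt_mem_V f.2 k.2⟩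
      map_add' := fun _ _ => rfl
      map_smul' := fun _ _ => rfl }
  map_one' := by
    ext f x
    simp [lt]
  map_mul' k l := by
    ext f x
    simp [lt, mul_assoc]

@[simp] theorem kact_coe (k : P.K) (f : V R) : (kact R k f : G → U) = lt (k : G) f := rfl

variable [FiniteDimensional ℂ U]

/-- action of the Lie algebra on `V` -/
noncomputable def act (R : RepData P U) (X : 𝔤) : V R →ₗ[ℂ] V R where
  toFun f := ⟨P.lD X f, lD_mem_V f.2 X⟩
  map_add' f g := Subtype.ext (lD_add X (smooth_of_mem_V f.2) (smooth_of_mem_V g.2))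
  map_smul' a f := Subtype.ext (lD_smul X a (smooth_of_mem_V f.2))

@[simp] theorem act_coe (X : 𝔤) (f : V R) : (act R X f : G → U) = P.lD X f := rfl

theorem act_add (X Y : 𝔤) (f : V R) : act R (X + Y) f = act R X f + act R Y f :=
  Subtype.ext (lD_add_left X Y (f : G → U))

theorem act_smul (a : ℝ) (X : 𝔤) (f : V R) : act R (a • X) f = a • act R X f :=
  Subtype.ext (lD_smul_left a X (f : G → U))

theorem act_comm (X Y : 𝔤) (f : V R) :
    act R X (act R Y f) - act R Y (act R X f) = act R (P.br X Y) f := by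
  ext x
  exact P.lD_commutator (smooth_of_mem_V f.2) X Y x

theorem kact_act (k : P.K) (X : 𝔤) (f : V R) :
    kact R k (act R X f) = act R (P.Ad k X) (kact R k f) := by
  ext x
  exact P.lt_lD X k x

/-- the Casimir operator of `K` on `V` -/
noncomputable def casV (R : RepData P U) : V R →ₗ[ℂ] V R :=
  -∑ i, act R (stdOrthonormalBasis ℝ P.𝔨 i : 𝔤) ∘ₗ act R (stdOrthonormalBasis ℝ P.𝔨 i : 𝔤)

theorem casV_coe (f : V R) : (casV R f : G → U) = cas P (f : G → U) := by
  simp [casV, cas]

end Pool.Agent.Helper38.SG
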