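import Mathlib
import Pool.Agent.Helper51.SG.Avg0

/-! # Sobolev gap, piece AVG-0: `K`-finite approximate units -/

open Filter Topology Set MeasureTheory
open scoped RealInnerProductSpace ContDiff

universe u

namespace Pool.Agent.Helper38.SG

variable {G 𝔤 : Type u} [Group G] [TopologicalSpace G] [IsTopologicalGroup G] [T2Space G]
  [NormedAddCommGroup 𝔤] [InnerProductSpace ℝ 𝔤] [FiniteDimensional ℝ 𝔤] {P : ParData G 𝔤}
  {U : Type u} [NormedAddCommGroup U] [InnerProductSpace ℂ U] [FiniteDimensional ℂ U]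
  {R : RepData P U}
  [MeasurableSpace P.K] [BorelSpace P.K] (μ : Measure P.K) [IsProbabilityMeasure μ]
  [μ.IsMulLeftInvariant] [μ.IsMulRightInvariant] [μ.IsInvInvariant] [μ.IsOpenPosMeasure]

/-- AVG-0: for a finite dimensional `K`-stable `W ⊆ V` there are kernels concentrated near the
set of elements acting trivially on `W`. -/
theorem exists_kernel (W : Submodule ℂ (V R)) [FiniteDimensional ℂ W]
    (hW : ∀ k, ∀ w ∈ W, kact R k w ∈ W) {O : Set P.K} (hO : IsOpen O)
    (hWO : ∀ k : P.K, (∀ w ∈ W, kact R k w = w) → k ∈ O) {ε : ℝ} (hε : 0 < ε) :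
    ∃ φ : P.K → ℝ, Kernel μ φ ∧ ∫ k in Oᶜ, φ k ∂μ ≤ ε :=
  Pool.Agent.Helper51.SG.exists_kernel μ W hW hO hWO hε

end Pool.Agent.Helper38.SG
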