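import Mathlib
import Pool.Agent.Helper51.SG.Avg1

/-! # Sobolev gap, piece AVG-1: averaging operators on `V` -/

open Filter Topology Set MeasureTheory
open scoped RealInnerProductSpace ContDiff

universe u

namespace Pool.Agent.Helper38.SG

variable {G 𝔤 : Type u} [Group G] [TopologicalSpace G] [IsTopologicalGroup G] [T2Space G]
  [NormedAddCommGroup 𝔤] [InnerProductSpace ℝ 𝔤] [FiniteDimensional ℝ 𝔤] {P : ParData G 𝔤}
  {U : Type u} [NormedAddCommGroup U] [InnerProductSpace ℂ U] [FiniteDimensional ℂ U]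
  {R : RepData P U}
  [MeasurableSpace P.K] [BorelSpace P.K] (μ : Measure P.K) [IsProbabilityMeasure μ]
  [μ.IsMulLeftInvariant] [μ.IsMulRightInvariant] [μ.IsInvInvariant] [μ.IsOpenPosMeasure]

/-- AVG-1: the averaging operator `T_φ f = ∫ φ(k) π(k) f dk` on `V`: it exists, is the weak
integral for every linear map to a Banach space, is symmetric for the pairing and has finite
rank. -/
theorem exists_avg {φ : P.K → ℝ} (hφ : Kernel μ φ) :
    ∃ T : V R →ₗ[ℂ] V R,
      (∀ (f : V R) (x : G), (T f : G → U) x = ∫ k : P.K, φ k • (f : G → U) ((k : G)⁻¹ * x) ∂μ) ∧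
      (∀ (E : Type u) [NormedAddCommGroup E] [NormedSpace ℂ E] [CompleteSpace E]
        (j : V R →ₗ[ℂ] E) (f : V R), (Continuous fun k : P.K => j (kact R k f)) ∧
        j (T f) = ∫ k : P.K, φ k • j (kact R k f) ∂μ) ∧
      (∀ h f : V R, pair μ (T h : G → U) (f : G → U) = pair μ (h : G → U) (T f : G → U)) ∧
      FiniteDimensional ℂ (LinearMap.range T) ∧
      (∀ W : Submodule ℂ (V R), FiniteDimensional ℂ W → (∀ k, ∀ w ∈ W, kact R k w ∈ W) →
        ∀ w ∈ W, T w ∈ W) :=
  Pool.Agent.Helper51.SG.exists_avg μ hφ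

/-- elements of `V` lie in finite dimensional `K`-stable subspaces of `V` -/
theorem exists_finite_stable (f : V R) : ∃ W : Submodule ℂ (V R), FiniteDimensional ℂ W ∧
    f ∈ W ∧ ∀ k, ∀ w ∈ W, kact R k w ∈ W :=
  Pool.Agent.Helper51.SG.exists_finite_stable f

/-- the pairing is a positive definite inner product on `V` -/
theorem pair_self_eq_zero {f : V R} (h : pair μ (f : G → U) (f : G → U) = 0) : f = 0 :=
  Pool.Agent.Helper51.SG.pair_self_eq_zero μ h

/-- the pairing on `V` as a sesquilinear map -/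
theorem exists_pairV : ∃ b : V R →ₗ⋆[ℂ] V R →ₗ[ℂ] ℂ,
    ∀ h f : V R, b h f = pair μ (h : G → U) (f : G → U) :=
  Pool.Agent.Helper51.SG.exists_pairV μ

theorem pair_conj (h f : V R) :
    (starRingEnd ℂ) (pair μ (h : G → U) (f : G → U)) = pair μ (f : G → U) (h : G → U) :=
  Pool.Agent.Helper51.SG.pair_conj μ h f

end Pool.Agent.Helper38.SG
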