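import Mathlib
import Pool.Agent.Helper33.SG.Avg2

/-! # Sobolev gap, pieces AVG-A and AVG-B: duality for `K`-continuous norms -/

open Filter Topology Set MeasureTheory
open scoped RealInnerProductSpace ContDiff

universe u

namespace Pool.Agent.Helper38.SG

variable {G 𝔤 : Type u} [Group G] [TopologicalSpace G] [IsTopologicalGroup G] [T2Space G]
  [NormedAddCommGroup 𝔤] [InnerProductSpace ℝ 𝔤] [FiniteDimensional ℝ 𝔤] {P : ParData G 𝔤}
  {U : Type u} [NormedAddCommGroup U] [InnerProductSpace ℂ U] [FiniteDimensional ℂ U]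
  {R : RepData P U}
  [MeasurableSpace P.K] [BorelSpace P.K] (μ : Measure P.K) [IsProbabilityMeasure μ]
  [μ.IsMulLeftInvariant] [μ.IsMulRightInvariant] [μ.IsInvInvariant] [μ.IsOpenPosMeasure]
  {E : Type u} [NormedAddCommGroup E] [NormedSpace ℂ E] [CompleteSpace E]
  (j : V R →ₗ[ℂ] E) (hj : Function.Injective j) {C₀ : ℝ}
  (hC : ∀ k f, ‖j (kact R k f)‖ ≤ C₀ * ‖j f‖)
include hj hC

/-- AVG-A -/
theorem pair_le (h : V R) :
    ∃ C : ℝ, 0 ≤ C ∧ ∀ f : V R, ‖pair μ (h : G → U) (f : G → U)‖ ≤ C * ‖j f‖ :=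
  Pool.Agent.Helper33.SG.pair_le μ j hj hC h

/-- AVG-B -/
theorem exists_dual (w : V R) {ε : ℝ} (hε : 0 < ε) :
    ∃ h : V R, (∀ f : V R, ‖pair μ (h : G → U) (f : G → U)‖ ≤ C₀ * ‖j f‖) ∧
      ‖j w‖ ≤ ‖pair μ (h : G → U) (w : G → U)‖ + ε :=
  Pool.Agent.Helper33.SG.exists_dual μ j hj hC w hε

end Pool.Agent.Helper38.SG
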