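import Pool.Agent.Helper38.SG.Iwa2

/-! # Sobolev gap, the cut-off function -/

open Filter Topology Set
open scoped RealInnerProductSpace ContDiff

universe u

namespace Pool.Agent.Helper38.SG

variable {G 𝔤 : Type u} [Group G] [TopologicalSpace G] [IsTopologicalGroup G] [T2Space G]
  [NormedAddCommGroup 𝔤] [InnerProductSpace ℝ 𝔤] [FiniteDimensional ℝ 𝔤]

namespace ParData

variable (P : ParData G 𝔤)

/-- a function on `K / M` with values in `[0, 1]`, equal to `1` exactly at the base point -/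
noncomputable def Fl (x : G) : ℝ :=
  1 - (4 * (Module.finrank ℝ P.𝔞 : ℝ) + 1)⁻¹ *
    ∑ i, ‖P.Ad (P.κ x) (stdOrthonormalBasis ℝ P.𝔞 i : 𝔤) - (stdOrthonormalBasis ℝ P.𝔞 i : 𝔤)‖ ^ 2

end ParData

end Pool.Agent.Helper38.SG
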