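import Mathlib
import Pool.Agent.Helper38.SG.LinDefs

/-! # Sobolev gap, the determinant `D` -/

open Filter Topology Set
open scoped RealInnerProductSpace ContDiff

universe u

namespace Pool.Agent.Helper38.SG

variable {G 𝔤 : Type u} [Group G] [TopologicalSpace G] [IsTopologicalGroup G] [T2Space G]
  [NormedAddCommGroup 𝔤] [InnerProductSpace ℝ 𝔤] [FiniteDimensional ℝ 𝔤]

namespace ParData

variable (P : ParData G 𝔤)

/-- `D(g) = det(E_𝔫 Ad(g) | 𝔫)`, as a determinant on `𝔤` -/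
noncomputable def Dt (g : G) : ℝ :=
  LinearMap.det ((P.En : 𝔤 →ₗ[ℝ] 𝔤) ∘ₗ P.Ad g ∘ₗ (P.En : 𝔤 →ₗ[ℝ] 𝔤) +
    (LinearMap.id - (P.En : 𝔤 →ₗ[ℝ] 𝔤)))

end ParData

end Pool.Agent.Helper38.SG
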