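import Mathlib
import Pool.Agent.Helper50.SG.Det

/-! # Sobolev gap, piece DET: the determinant `D` -/

open Filter Topology Set
open scoped RealInnerProductSpace ContDiff

universe u

namespace Pool.Agent.Helper38.SG

variable {G 𝔤 : Type u} [Group G] [TopologicalSpace G] [IsTopologicalGroup G] [T2Space G]
  [NormedAddCommGroup 𝔤] [InnerProductSpace ℝ 𝔤] [FiniteDimensional ℝ 𝔤]

namespace ParData

variable (P : ParData G 𝔤)

theorem continuous_Dt : Continuous P.Dt :=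
  Pool.Agent.Helper50.SG.continuous_Dt P

theorem Dt_one : P.Dt 1 = 1 :=
  Pool.Agent.Helper50.SG.Dt_one P

theorem abs_Dt_le {k : G} (hk : k ∈ P.K) : |P.Dt k| ≤ 1 :=
  Pool.Agent.Helper50.SG.abs_Dt_le P hk

theorem Dt_mul_M_sq (x : G) {m : G} (hm : m ∈ P.M) : P.Dt (x * m) ^ 2 = P.Dt x ^ 2 :=
  Pool.Agent.Helper50.SG.Dt_mul_M_sq P x hm

/-- the key lower bound for the Iwasawa projection -/
theorem exp_mul_abs_Dt_le {k : G} (hk : k ∈ P.K) (t : ℝ) :
    Real.exp (2 * t * P.c) * |P.Dt k| ≤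
      Real.exp (2 * P.ρ (P.η (P.exp (t • (P.X0 : 𝔤)) * k))) :=
  Pool.Agent.Helper50.SG.exp_mul_abs_Dt_le P hk t

end ParData

end Pool.Agent.Helper38.SG
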