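import Mathlib
import Pool.Agent.Helper38.SG.KAlgDefs
import Pool.Agent.Helper44.SG.KAlg

/-! # Sobolev gap, piece KALG: cut-off functions in `K`-finite functions on `G / P` -/

open Filter Topology Set
open scoped RealInnerProductSpace ContDiff

universe u

namespace Pool.Agent.Helper38.SG

variable {G 𝔤 : Type u} [Group G] [TopologicalSpace G] [IsTopologicalGroup G] [T2Space G]
  [NormedAddCommGroup 𝔤] [InnerProductSpace ℝ 𝔤] [FiniteDimensional ℝ 𝔤]

theorem KFinite.mul {P : ParData G 𝔤} {F : Type*} [AddCommGroup F] [Module ℂ F] {a : G → ℂ}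
    {f : G → F} (ha : KFinite P a) (hf : KFinite P f) : KFinite P (fun x => a x • f x) :=
  Pool.Agent.Helper44.SG.KFinite.mul ha hf

namespace ParData

variable (P : ParData G 𝔤)

theorem kfinite_Ad (v w : 𝔤) :
    KFinite P (fun x : G => ((⟪v, P.Ad (P.κ x) w⟫ : ℝ) : ℂ)) :=
  Pool.Agent.Helper44.SG.ParData.kfinite_Ad P v w

theorem continuous_Fl : Continuous P.Fl :=
  Pool.Agent.Helper44.SG.ParData.continuous_Fl P

theorem Fl_nonneg (x : G) : 0 ≤ P.Fl x :=
  Pool.Agent.Helper44.SG.ParData.Fl_nonneg P x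

theorem Fl_le_one (x : G) : P.Fl x ≤ 1 :=
  Pool.Agent.Helper44.SG.ParData.Fl_le_one P x

theorem Fl_eq_one {k : G} (hk : k ∈ P.K) : P.Fl k = 1 ↔ k ∈ P.M :=
  Pool.Agent.Helper44.SG.ParData.Fl_eq_one P hk

/-- the module `V` is stable under multiplication by `Fl^J D²` -/
theorem cutoff_mem_V {U : Type u} [NormedAddCommGroup U] [InnerProductSpace ℂ U]
    {R : RepData P U} {f : G → U} (hf : f ∈ V R) (J : ℕ) (a : ℂ) :
    (fun x => (a * ((P.Fl x ^ J * P.Dt (P.κ x) ^ 2 : ℝ) : ℂ)) • f x) ∈ V R :=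
  Pool.Agent.Helper44.SG.ParData.cutoff_mem_V P hf J a

end ParData

end Pool.Agent.Helper38.SG
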