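import Mathlib
import Pool.Agent.Helper17.SG.LinA2

/-! # Sobolev gap, piece LIN-A2: restricted root decomposition (pure linear algebra) -/

open Filter Topology Set
open scoped RealInnerProductSpace ContDiff

universe u

namespace Pool.Agent.Helper38.SG

variable {G 𝔤 : Type u} [Group G] [TopologicalSpace G]
  [NormedAddCommGroup 𝔤] [InnerProductSpace ℝ 𝔤] [FiniteDimensional ℝ 𝔤]

namespace ParData

variable (P : ParData G 𝔤)

variable (hsk : ∀ X, P.br X X = 0)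
  (hjac : ∀ X Y Z, P.br X (P.br Y Z) = P.br (P.br X Y) Z + P.br Y (P.br X Z))
include hsk hjac

/-- `X0` acts with eigenvalues `≥ 1` on `𝔫`: every positive root is a nonempty sum of simple
roots. -/
theorem X0_ge {Y : 𝔤} (hY : Y ∈ P.𝔫) : ‖Y‖ ^ 2 ≤ ⟪P.br P.X0 Y, Y⟫ :=
  Pool.Agent.Helper17.SG.X0_ge P hsk hjac hY

/-- decay of `e^{t ad X0}` on `θ 𝔫` -/
theorem norm_exp_X0_le {Y : 𝔤} (hY : P.θ Y ∈ P.𝔫) {t : ℝ} (ht : 0 ≤ t) :
    ‖NormedSpace.exp (t • LinearMap.toContinuousLinearMap (P.br P.X0)) Y‖ ≤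
      Real.exp (-t) * ‖Y‖ :=
  Pool.Agent.Helper17.SG.norm_exp_X0_le P hsk hjac hY ht

theorem c_nonneg : 0 ≤ P.c :=
  Pool.Agent.Helper17.SG.c_nonneg P hsk hjac

end ParData

end Pool.Agent.Helper38.SG
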