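import Mathlib
import Pool.Agent.Helper57.SG.Near

/-! # Sobolev gap, piece NEAR: functions near the base point -/

open Filter Topology Set
open scoped RealInnerProductSpace ContDiff

universe u

namespace Pool.Agent.Helper38.SG

variable {G 𝔤 : Type u} [Group G] [TopologicalSpace G] [IsTopologicalGroup G] [T2Space G]
  [NormedAddCommGroup 𝔤] [InnerProductSpace ℝ 𝔤] [FiniteDimensional ℝ 𝔤]

/-- NEAR-A: coordinates `θ𝔫 × M × 𝔞 × 𝔫` near `M` in `K` -/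
theorem near_M (P : ParData G 𝔤) {W : Set G} (hW : W ∈ 𝓝 (1 : G)) {ε : ℝ} (hε : 0 < ε) :
    ∃ W' ∈ 𝓝 (1 : G), ∀ k ∈ P.K, ∀ m0 ∈ P.M, k * m0 ∈ W' →
      ∃ Z m H X, P.θ Z ∈ P.𝔫 ∧ m ∈ P.M ∧ H ∈ P.𝔞 ∧ X ∈ P.𝔫 ∧
        k = P.exp Z * m * P.exp H * P.exp X ∧ ‖Z‖ < ε ∧ ‖H‖ < ε ∧ k * m⁻¹ ∈ W :=
  Pool.Agent.Helper57.SG.near_M P hW hε

/-- NEAR-B: Lipschitz bound for induced functions at the unit -/
theorem lipschitz_one {P : ParData G 𝔤} {U : Type u} [NormedAddCommGroup U]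
    [InnerProductSpace ℂ U] (R : RepData P U) :
    ∃ (r : ℝ) (C : ℝ), 0 < r ∧ 0 ≤ C ∧ ∀ (f : G → U), IndFun R f → P.Smooth f → ∀ B : ℝ,
      (∀ k ∈ P.K, ‖f k‖ ≤ B) →
      (∀ k ∈ P.K, ∀ i, ‖P.lD (stdOrthonormalBasis ℝ P.𝔨 i : 𝔤) f k‖ ≤ B) →
      ∀ Z : 𝔤, ‖Z‖ ≤ r → ‖f (P.exp Z) - f 1‖ ≤ C * ‖Z‖ * B :=
  Pool.Agent.Helper57.SG.lipschitz_one R

end Pool.Agent.Helper38.SG
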