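import Mathlib
import Pool.Agent.Helper67.SG.Base1

/-! # Sobolev gap, piece BASE-1: asymptotics of matrix coefficients -/

open Filter Topology Set MeasureTheory
open scoped RealInnerProductSpace ContDiff

universe u

namespace Pool.Agent.Helper38.SG

variable {G 𝔤 : Type u} [Group G] [TopologicalSpace G] [IsTopologicalGroup G] [T2Space G]
  [NormedAddCommGroup 𝔤] [InnerProductSpace ℝ 𝔤] [FiniteDimensional ℝ 𝔤] {P : ParData G 𝔤}
  {U : Type u} [NormedAddCommGroup U] [InnerProductSpace ℂ U] [FiniteDimensional ℂ U]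
  {R : RepData P U}
  [MeasurableSpace P.K] [BorelSpace P.K] (μ : Measure P.K) [IsProbabilityMeasure μ]
  [μ.IsMulLeftInvariant] [μ.IsMulRightInvariant] [μ.IsOpenPosMeasure]

/-- BASE-1 -/
theorem asymptotics (ξ₁ : V R) {ε : ℝ} (hε : 0 < ε) :
    ∃ (ξ : V R) (C : ℝ), 0 ≤ C ∧ ∀ (f : V R) (B : ℝ),
      (∀ k ∈ P.K, ‖(f : G → U) k‖ ≤ B) →
      ∀ B' : ℝ, (∀ k ∈ P.K, ∀ i, ‖P.lD (stdOrthonormalBasis ℝ P.𝔨 i : 𝔤) (f : G → U) k‖ ≤ B') →
      ∀ t : ℝ, 0 ≤ t →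
      ‖pair μ (ξ : G → U) (lt (P.exp (t • (P.X0 : 𝔤)))⁻¹ (f : G → U)) -
          Complex.exp (-(Complex.I * (R.ν (t • (P.X0 : 𝔤)) : ℝ) + (t * P.c : ℝ))) *
            inner ℂ ((ξ₁ : G → U) 1) ((f : G → U) 1)‖ ≤
        Real.exp (-(t * P.c)) * (ε * B + C * Real.exp (-t) * (B + B')) :=
  Pool.Agent.Helper67.SG.asymptotics μ ξ₁ hε

end Pool.Agent.Helper38.SG
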