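import Pool.Agent.Helper38.SG.Mod

/-! # Sobolev gap, the sup norm on V -/

open Filter Topology Set MeasureTheory
open scoped RealInnerProductSpace ContDiff

universe u

namespace Pool.Agent.Helper38.SG

variable {G 𝔤 : Type u} [Group G] [TopologicalSpace G] [IsTopologicalGroup G] [T2Space G]
  [NormedAddCommGroup 𝔤] [InnerProductSpace ℝ 𝔤] [FiniteDimensional ℝ 𝔤] {P : ParData G 𝔤}
  {U : Type u} [NormedAddCommGroup U] [InnerProductSpace ℂ U]

/-- the sup norm over `K` of functions in `V` -/
noncomputable def sn {P : ParData G 𝔤} {U : Type u} [NormedAddCommGroup U]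
    [InnerProductSpace ℂ U] {R : RepData P U} (f : V R) : ℝ := ⨆ k : P.K, ‖(f : G → U) k‖

variable {R : RepData P U}

theorem bddAbove_sn (f : V R) : BddAbove (Set.range fun k : P.K => ‖(f : G → U) k‖) := by
  have hc : Continuous fun k : P.K => ‖(f : G → U) k‖ :=
    (f.2.1.comp continuous_subtype_val).norm
  exact (isCompact_range hc).bddAbove

theorem le_sn (f : V R) {k : G} (hk : k ∈ P.K) : ‖(f : G → U) k‖ ≤ sn f :=
  le_ciSup (bddAbove_sn f) (⟨k, hk⟩ : P.K)

theorem sn_le (f : V R) {B : ℝ} (h : ∀ k ∈ P.K, ‖(f : G → U) k‖ ≤ B) : sn f ≤ B :=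
  ciSup_le fun k => h k k.2

theorem sn_nonneg (f : V R) : 0 ≤ sn f := (norm_nonneg _).trans (le_sn f (one_mem P.K))

/-- the sup norm as a real seminorm -/
noncomputable def snS (R : RepData P U) : Seminorm ℝ (V R) where
  toFun := sn
  map_zero' := le_antisymm (sn_le _ fun k _ => by simp) (sn_nonneg _)
  add_le' f g := sn_le _ fun k hk =>
    (norm_add_le _ _).trans (add_le_add (le_sn f hk) (le_sn g hk))
  neg' f := by
    refine le_antisymm (sn_le _ fun k hk => ?_) (sn_le _ fun k hk => ?_)
    · simpa using le_sn f hk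
    · simpa using le_sn (-f) hk
  smul' a f := by
    have h1 : ∀ (a : ℝ) (f : V R), sn (a • f) ≤ ‖a‖ * sn f := fun a f => sn_le _ fun k hk => by
      have : ((a • f : V R) : G → U) k = a • (f : G → U) k := rfl
      rw [this, norm_smul]
      exact mul_le_mul_of_nonneg_left (le_sn f hk) (norm_nonneg _)
    refine le_antisymm (h1 a f) ?_
    rcases eq_or_ne a 0 with rfl | ha
    · simpa using sn_nonneg _
    · have := h1 a⁻¹ (a • f)
      rw [smul_smul, inv_mul_cancel₀ ha, one_smul, norm_inv] at this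
      have ha' : 0 < ‖a‖ := norm_pos_iff.2 ha
      calc ‖a‖ * sn f ≤ ‖a‖ * (‖a‖⁻¹ * sn (a • f)) := mul_le_mul_of_nonneg_left this ha'.le
        _ = sn (a • f) := by field_simp

@[simp] theorem snS_apply (f : V R) : snS R f = sn f := rfl

theorem sn_kact (k : P.K) (f : V R) : sn (kact R k f) ≤ sn f := sn_le _ fun l hl => by
  rw [kact_coe]
  exact le_sn f (mul_mem (inv_mem k.2) hl)


end Pool.Agent.Helper38.SG
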