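import Mathlib
import Pool.Agent.Helper38.SG.Base2Defs
import Pool.Agent.Helper88.SG.Base2

/-! # Sobolev gap, piece BASE-2: the basic inequality -/

open Filter Topology Set MeasureTheory
open scoped RealInnerProductSpace ContDiff

universe u

namespace Pool.Agent.Helper38.SG

variable {G 𝔤 : Type u} [Group G] [TopologicalSpace G] [IsTopologicalGroup G] [T2Space G]
  [NormedAddCommGroup 𝔤] [InnerProductSpace ℝ 𝔤] [FiniteDimensional ℝ 𝔤] {P : ParData G 𝔤}
  {U : Type u} [NormedAddCommGroup U] [InnerProductSpace ℂ U]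

variable [FiniteDimensional ℂ U]
  [MeasurableSpace P.K] [BorelSpace P.K] (μ : Measure P.K) [IsProbabilityMeasure μ]
  [μ.IsMulLeftInvariant] [μ.IsMulRightInvariant] [μ.IsOpenPosMeasure]

/-- BASE-2: the basic inequality. If `S` bounds all coefficients `⟪ξ, π(g) f⟫` (up to constants
depending on `ξ`) then `‖f‖_∞ ≤ C e^{tc} S + C e^{-t} ‖∇ f‖_∞` for all `t ≥ 0`. -/
theorem basic_inequality (R : RepData P U) (p : V R → ℝ) (hp0 : ∀ f, 0 ≤ p f)
    (hp : ∀ ξ : V R, ∃ C : ℝ, ∀ (f : V R) (g : G),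
      ‖pair μ (ξ : G → U) (lt g (f : G → U))‖ ≤ C * p f) :
    ∃ C : ℝ, 0 ≤ C ∧ ∀ (f : V R) (t : ℝ), 0 ≤ t →
      sn f ≤ C * Real.exp (t * P.c) * p f + C * Real.exp (-t) *
        (sn f + ∑ i, sn (act R (stdOrthonormalBasis ℝ P.𝔨 i : 𝔤) f)) :=
  Pool.Agent.Helper88.SG.basic_inequality μ R p hp0 hp

end Pool.Agent.Helper38.SG
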