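import Mathlib
import Pool.Agent.Helper50.SG.CalcB

/-! # Sobolev gap, piece CALC-B: smooth functions and right derivatives -/

open Filter Topology Set
open scoped RealInnerProductSpace ContDiff

universe u

namespace Pool.Agent.Helper38.SG

variable {G 𝔤 : Type u} [Group G] [TopologicalSpace G] [IsTopologicalGroup G]
  [NormedAddCommGroup 𝔤] [InnerProductSpace ℝ 𝔤] [FiniteDimensional ℝ 𝔤]

namespace LieData

variable (L : LieData G 𝔤)

variable {F : Type*} [NormedAddCommGroup F] [NormedSpace ℝ F]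

theorem Smooth.continuous {f : G → F} (hf : L.Smooth f) : Continuous f :=
  Pool.Agent.Helper50.SG.Smooth.continuous L hf

theorem hasDerivAt_rD {f : G → F} (hf : L.Smooth f) (X : 𝔤) (x : G) (t : ℝ) :
    HasDerivAt (fun t : ℝ => f (x * L.exp (t • X))) (L.rD X f (x * L.exp (t • X))) t :=
  Pool.Agent.Helper50.SG.hasDerivAt_rD L hf X x t

theorem Smooth.rD {f : G → F} (hf : L.Smooth f) (X : 𝔤) : L.Smooth (L.rD X f) :=
  Pool.Agent.Helper50.SG.Smooth.rD L hf X

theorem rD_commutator {f : G → F} (hf : L.Smooth f) (X Y : 𝔤) (x : G) :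
    L.rD X (L.rD Y f) x - L.rD Y (L.rD X f) x = L.rD (L.br X Y) f x :=
  Pool.Agent.Helper50.SG.rD_commutator L hf X Y x

theorem Smooth.comp_mul_left {f : G → F} (hf : L.Smooth f) (g : G) :
    L.Smooth (fun x => f (g * x)) :=
  Pool.Agent.Helper50.SG.Smooth.comp_mul_left L hf g

theorem Smooth.comp_mul_right {f : G → F} (hf : L.Smooth f) (g : G) :
    L.Smooth (fun x => f (x * g)) :=
  Pool.Agent.Helper50.SG.Smooth.comp_mul_right L hf g

/-- matrix coefficients of `Ad` are smooth -/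
theorem smooth_Ad (X : 𝔤) : L.Smooth (fun x => L.Ad x X) :=
  Pool.Agent.Helper50.SG.smooth_Ad L X

theorem smooth_Ad_inv (X : 𝔤) : L.Smooth (fun x => L.Ad x⁻¹ X) :=
  Pool.Agent.Helper50.SG.smooth_Ad_inv L X

theorem rD_Ad_inv (X Y : 𝔤) (x : G) :
    L.rD Y (fun x => L.Ad x⁻¹ X) x = -L.br Y (L.Ad x⁻¹ X) :=
  Pool.Agent.Helper50.SG.rD_Ad_inv L X Y x

end LieData

end Pool.Agent.Helper38.SG
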