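import Mathlib
import Pool.Agent.Helper54.SG.CasB

/-! # Sobolev gap, piece CAS-B: Casimir operators -/

open Filter Topology Set MeasureTheory
open scoped RealInnerProductSpace ContDiff

universe u

namespace Pool.Agent.Helper38.SG

variable {G 𝔤 : Type u} [Group G] [TopologicalSpace G] [IsTopologicalGroup G] [T2Space G]
  [NormedAddCommGroup 𝔤] [InnerProductSpace ℝ 𝔤] [FiniteDimensional ℝ 𝔤] {P : ParData G 𝔤}
  {U : Type u} [NormedAddCommGroup U] [InnerProductSpace ℂ U] [FiniteDimensional ℂ U]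
  {R : RepData P U}

/-- CAS-B: decomposition into eigenfunctions of the Casimir operator of `K`. -/
theorem casimir_decomp {f : G → U} (hf : f ∈ V R) : ∃ (s : Finset ℝ) (g : ℝ → G → U),
    (∀ μ ∈ s, 0 ≤ μ) ∧ (∀ μ ∈ s, g μ ∈ V R) ∧ (∀ μ ∈ s, cas P (g μ) = (μ : ℂ) • g μ) ∧
    f = ∑ μ ∈ s, g μ :=
  Pool.Agent.Helper54.SG.casimir_decomp hf

end Pool.Agent.Helper38.SG
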