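import Mathlib
import Pool.Agent.Helper41.SG.CasC

/-! # Sobolev gap, piece CAS-C: Casimir operators -/

open Filter Topology Set MeasureTheory
open scoped RealInnerProductSpace ContDiff

universe u

namespace Pool.Agent.Helper38.SG

variable {G 𝔤 : Type u} [Group G] [TopologicalSpace G] [IsTopologicalGroup G] [T2Space G]
  [NormedAddCommGroup 𝔤] [InnerProductSpace ℝ 𝔤] [FiniteDimensional ℝ 𝔤] {P : ParData G 𝔤}
  {U : Type u} [NormedAddCommGroup U] [InnerProductSpace ℂ U] [FiniteDimensional ℂ U]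
  {R : RepData P U}

/-- CAS-C -/
theorem casRel_iff {f : G → U} (hf : f ∈ V R) (g : G → U) : CasRel P f g ↔ g = cas P f :=
  Pool.Agent.Helper41.SG.casRel_iff hf g

/-- CAS-C -/
theorem cas_mem_V {f : G → U} (hf : f ∈ V R) : cas P f ∈ V R :=
  Pool.Agent.Helper41.SG.cas_mem_V hf

/-- CAS-C: the Casimir operator commutes with the Lie algebra of `K` -/
theorem cas_lD {f : G → U} (hf : f ∈ V R) {Z : 𝔤} (hZ : Z ∈ P.𝔨) :
    cas P (P.lD Z f) = P.lD Z (cas P f) :=
  Pool.Agent.Helper41.SG.cas_lD hf hZ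

end Pool.Agent.Helper38.SG
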