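import Mathlib
import Pool.Agent.Helper28.SG.CasA

/-! # Sobolev gap, piece CAS-A: Casimir operators -/

open Filter Topology Set MeasureTheory
open scoped RealInnerProductSpace ContDiff

universe u

namespace Pool.Agent.Helper38.SG

variable {G 𝔤 : Type u} [Group G] [TopologicalSpace G] [IsTopologicalGroup G] [T2Space G]
  [NormedAddCommGroup 𝔤] [InnerProductSpace ℝ 𝔤] [FiniteDimensional ℝ 𝔤] {P : ParData G 𝔤}
  {U : Type u} [NormedAddCommGroup U] [InnerProductSpace ℂ U] [FiniteDimensional ℂ U]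
  {R : RepData P U}

/-- CAS-A: the Casimir operator of `G` acts by a real scalar. -/
theorem casimir_scalar (R : RepData P U) : ∃ a : ℝ, ∀ f ∈ V R, ∀ {ι : Type} [Fintype ι]
    (y : OrthonormalBasis ι ℝ 𝔤),
    ∑ j, P.lD (y j) (P.lD (y j) f) = (a : ℂ) • f - (2 : ℂ) • cas P f :=
  Pool.Agent.Helper28.SG.casimir_scalar R

end Pool.Agent.Helper38.SG
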