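import Mathlib
import Pool.Agent.Helper57.SG.Coef2

/-! # Sobolev gap, piece COEF-2: the unitary `L²` realisation -/

open Filter Topology Set MeasureTheory
open scoped RealInnerProductSpace ContDiff

universe u

namespace Pool.Agent.Helper38.SG

variable {G 𝔤 : Type u} [Group G] [TopologicalSpace G] [IsTopologicalGroup G] [T2Space G]
  [NormedAddCommGroup 𝔤] [InnerProductSpace ℝ 𝔤] [FiniteDimensional ℝ 𝔤] {P : ParData G 𝔤}
  {U : Type u} [NormedAddCommGroup U] [InnerProductSpace ℂ U] [FiniteDimensional ℂ U]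
  [MeasurableSpace P.K] [BorelSpace P.K] (μ : Measure P.K) [IsProbabilityMeasure μ]
  [μ.IsMulLeftInvariant] [μ.IsMulRightInvariant] [μ.IsOpenPosMeasure]

/-- COEF-2: smooth induced functions with the `L²(K)`-norm. -/
theorem exists_L2 (R : RepData P U) : ∃ (E₂ : Type u) (_ : NormedAddCommGroup E₂)
    (_ : NormedSpace ℂ E₂) (π₂ : G →* (E₂ →L[ℂ] E₂)) (j₂ : V R →ₗ[ℂ] E₂),
    (∀ g v, ‖π₂ g v‖ ≤ ‖v‖) ∧
    (∀ (X : 𝔤) (f : V R),
      HasDerivAt (fun t : ℝ => π₂ (P.exp (t • X)) (j₂ f)) (j₂ (act R X f)) 0) ∧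
    (∀ (k : P.K) (f : V R), π₂ k (j₂ f) = j₂ (kact R k f)) ∧
    ∀ h : V R, ∃ L : E₂ →L[ℂ] ℂ, ∀ (g : G) (f : V R),
      L (π₂ g (j₂ f)) = pair μ (h : G → U) (lt g (f : G → U)) :=
  Pool.Agent.Helper57.SG.exists_L2 μ R

end Pool.Agent.Helper38.SG
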