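import Pool.Agent.Helper38.SG.Coef1
import Pool.Agent.Helper38.SG.Coef2

/-! # Sobolev gap: matrix coefficients of `G`-continuous norms -/

open Filter Topology Set MeasureTheory
open scoped RealInnerProductSpace ContDiff

universe u

namespace Pool.Agent.Helper38.SG

variable {G 𝔤 : Type u} [Group G] [TopologicalSpace G] [IsTopologicalGroup G] [T2Space G]
  [NormedAddCommGroup 𝔤] [InnerProductSpace ℝ 𝔤] [FiniteDimensional ℝ 𝔤] {P : ParData G 𝔤}
  {U : Type u} [NormedAddCommGroup U] [InnerProductSpace ℂ U] [FiniteDimensional ℂ U]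
  {R : RepData P U}
  [MeasurableSpace P.K] [BorelSpace P.K] (μ : Measure P.K) [IsProbabilityMeasure μ]
  [μ.IsMulLeftInvariant] [μ.IsMulRightInvariant] [μ.IsOpenPosMeasure]

theorem coef {E : Type u} [NormedAddCommGroup E] [NormedSpace ℂ E]
    (π : G →* (E →L[ℂ] E)) {C₀ : ℝ} (hC : ∀ g v, ‖π g v‖ ≤ C₀ * ‖v‖) (j : V R →ₗ[ℂ] E)
    (hj : ∀ (X : 𝔤) (f : V R),
      HasDerivAt (fun t : ℝ => π (P.exp (t • X)) (j f)) (j (act R X f)) 0)
    (hk : ∀ (k : P.K) (f : V R), π k (j f) = j (kact R k f))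
    (L : E →L[ℂ] ℂ) (h : V R) (hL : ∀ f, L (j f) = pair μ (h : G → U) (f : G → U))
    (g : G) (f : V R) : L (π g (j f)) = pair μ (h : G → U) (lt g (f : G → U)) := by
  obtain ⟨E₂, i1, i2, π₂, j₂, h1, h2, h3, h4⟩ := exists_L2 μ R
  obtain ⟨L₂, hL₂⟩ := h4 h
  rw [← hL₂ g f]
  refine coef_compare π π₂ hC (C₀' := 1) (fun g v => by simpa using h1 g v) j j₂ hj h2 hk h3 L L₂
    (fun f => ?_) g f
  rw [hL f]
  have := hL₂ 1 f
  rw [map_one, lt_one] at this
  simpa using this.symm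

end Pool.Agent.Helper38.SG
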