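import Mathlib
import Pool.Agent.Helper8.SG.FCalcA

/-! # Sobolev gap, piece FCALC-A: functional calculus of the Casimir operator of `K` -/

open Filter Topology Set MeasureTheory
open scoped RealInnerProductSpace ContDiff

universe u

namespace Pool.Agent.Helper38.SG

variable {G 𝔤 : Type u} [Group G] [TopologicalSpace G] [IsTopologicalGroup G] [T2Space G]
  [NormedAddCommGroup 𝔤] [InnerProductSpace ℝ 𝔤] [FiniteDimensional ℝ 𝔤] {P : ParData G 𝔤}
  {U : Type u} [NormedAddCommGroup U] [InnerProductSpace ℂ U] [FiniteDimensional ℂ U]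

/-- FCALC-A: every vector is a finite sum of Casimir eigenvectors (in `V`) -/
theorem casV_decomp {R : RepData P U} (f : V R) : ∃ (s : Finset ℝ) (g : ℝ → V R),
    (∀ μ ∈ s, 0 ≤ μ) ∧ (∀ μ ∈ s, casV R (g μ) = (μ : ℂ) • g μ) ∧ f = ∑ μ ∈ s, g μ :=
  Pool.Agent.Helper8.SG.casV_decomp f

/-- FCALC-A -/
theorem exists_fcalc (R : RepData P U) (φ : ℝ → ℝ) : ∃ D : V R →ₗ[ℂ] V R,
    ∀ (f : V R) (μ : ℝ), casV R f = (μ : ℂ) • f → D f = ((φ μ : ℝ) : ℂ) • f :=
  Pool.Agent.Helper8.SG.exists_fcalc R φ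

end Pool.Agent.Helper38.SG
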