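import Mathlib
import Pool.Agent.Helper41.SG.Coef1

/-! # Sobolev gap, piece COEF-1: comparison of matrix coefficients of two representations -/

open Filter Topology Set MeasureTheory
open scoped RealInnerProductSpace ContDiff

universe u

namespace Pool.Agent.Helper38.SG

variable {G 𝔤 : Type u} [Group G] [TopologicalSpace G] [IsTopologicalGroup G] [T2Space G]
  [NormedAddCommGroup 𝔤] [InnerProductSpace ℝ 𝔤] [FiniteDimensional ℝ 𝔤] {P : ParData G 𝔤}
  {U : Type u} [NormedAddCommGroup U] [InnerProductSpace ℂ U] [FiniteDimensional ℂ U]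
  {R : RepData P U}

/-- COEF-1: if `L ∘ j = L' ∘ j'` on `V` then all matrix coefficients agree (Harish-Chandra's
analyticity argument). -/
theorem coef_compare {E E' : Type u} [NormedAddCommGroup E] [NormedSpace ℂ E]
    [NormedAddCommGroup E'] [NormedSpace ℂ E']
    (π : G →* (E →L[ℂ] E)) (π' : G →* (E' →L[ℂ] E')) {C₀ C₀' : ℝ}
    (hC : ∀ g v, ‖π g v‖ ≤ C₀ * ‖v‖) (hC' : ∀ g v, ‖π' g v‖ ≤ C₀' * ‖v‖)
    (j : V R →ₗ[ℂ] E) (j' : V R →ₗ[ℂ] E')
    (hj : ∀ (X : 𝔤) (f : V R),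
      HasDerivAt (fun t : ℝ => π (P.exp (t • X)) (j f)) (j (act R X f)) 0)
    (hj' : ∀ (X : 𝔤) (f : V R),
      HasDerivAt (fun t : ℝ => π' (P.exp (t • X)) (j' f)) (j' (act R X f)) 0)
    (hk : ∀ (k : P.K) (f : V R), π k (j f) = j (kact R k f))
    (hk' : ∀ (k : P.K) (f : V R), π' k (j' f) = j' (kact R k f))
    (L : E →L[ℂ] ℂ) (L' : E' →L[ℂ] ℂ) (hL : ∀ f, L (j f) = L' (j' f)) (g : G) (f : V R) :
    L (π g (j f)) = L' (π' g (j' f)) :=
  Pool.Agent.Helper41.SG.coef_compare π π' hC hC' j j' hj hj' hk hk' L L' hL g f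

end Pool.Agent.Helper38.SG
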