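import Pool.Agent.Helper77.SG.Conc

/-! # Sobolev gap, piece CONC: concentration of measures `F^J w dμ` (see the import) -/
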