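import Mathlib
import Pool.Agent.Helper38.SG.FCalcA
import Pool.Agent.Helper38.SG.CasC

/-! # Sobolev gap, functional calculus of the Casimir operator of `K` -/

open Filter Topology Set MeasureTheory
open scoped RealInnerProductSpace ContDiff

universe u

namespace Pool.Agent.Helper38.SG

variable {G 𝔤 : Type u} [Group G] [TopologicalSpace G] [IsTopologicalGroup G] [T2Space G]
  [NormedAddCommGroup 𝔤] [InnerProductSpace ℝ 𝔤] [FiniteDimensional ℝ 𝔤] {P : ParData G 𝔤}
  {U : Type u} [NormedAddCommGroup U] [InnerProductSpace ℂ U] [FiniteDimensional ℂ U]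

/-- `φ(Δ)` on `V` -/
noncomputable def fc (R : RepData P U) (φ : ℝ → ℝ) : V R →ₗ[ℂ] V R :=
  (exists_fcalc R φ).choose

theorem fc_apply (R : RepData P U) (φ : ℝ → ℝ) {f : V R} {μ : ℝ}
    (h : casV R f = (μ : ℂ) • f) : fc R φ f = ((φ μ : ℝ) : ℂ) • f :=
  (exists_fcalc R φ).choose_spec f μ h

/-- linear maps agreeing on Casimir eigenvectors are equal -/
theorem fc_ext {R : RepData P U} {E : Type*} [AddCommGroup E] [Module ℂ E]
    {D D' : V R →ₗ[ℂ] E}
    (h : ∀ (f : V R) (μ : ℝ), 0 ≤ μ → casV R f = (μ : ℂ) • f → D f = D' f) : D = D' := by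
  ext f
  obtain ⟨s, g, h0, h1, rfl⟩ := casV_decomp f
  rw [map_sum, map_sum]
  exact Finset.sum_congr rfl fun μ hμ => h _ μ (h0 μ hμ) (h1 μ hμ)

/-- the heat operator `P_u = e^{-uΔ}` -/
noncomputable def Pu (R : RepData P U) (u : ℝ) : V R →ₗ[ℂ] V R :=
  fc R fun μ => Real.exp (-(u * μ))

theorem Pu_apply (R : RepData P U) (u : ℝ) {f : V R} {μ : ℝ}
    (h : casV R f = (μ : ℂ) • f) : Pu R u f = ((Real.exp (-(u * μ)) : ℝ) : ℂ) • f :=
  fc_apply R _ h

theorem Pu_add (R : RepData P U) (u v : ℝ) (f : V R) : Pu R (u + v) f = Pu R u (Pu R v f) := by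
  have : Pu R (u + v) = Pu R u ∘ₗ Pu R v := by
    refine fc_ext fun f μ _ h => ?_
    rw [LinearMap.comp_apply, Pu_apply R _ h, Pu_apply R _ h, map_smul, Pu_apply R _ h, smul_smul,
      ← Complex.ofReal_mul, ← Real.exp_add]
    ring_nf
  rw [this, LinearMap.comp_apply]

theorem Pu_zero (R : RepData P U) (f : V R) : Pu R 0 f = f := by
  have : Pu R 0 = LinearMap.id := by
    refine fc_ext fun f μ _ h => ?_
    rw [Pu_apply R _ h]
    simp
  rw [this, LinearMap.id_apply]

/-- FCALC-C: existence and uniqueness of `D_s`. -/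
theorem isSob_iff (R : RepData P U) (s : ℝ) (D : V R →ₗ[ℂ] V R) :
    IsSob s D ↔ D = fc R fun μ => (1 + μ) ^ (s / 2) := by
  constructor
  · intro hD
    refine fc_ext fun f μ _ h => ?_
    rw [fc_apply R _ h]
    refine hD f μ ((casRel_iff f.2 _).2 ?_)
    rw [← casV_coe, h]; rfl
  · rintro rfl f μ h
    refine fc_apply R _ (Subtype.ext ?_)
    rw [casV_coe, ← (casRel_iff f.2 _).1 h]; rfl

end Pool.Agent.Helper38.SG
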