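import Mathlib
import Pool.Agent.Helper8.SG.FCalcB

/-! # Sobolev gap, piece FCALC-B: functional calculus of the Casimir operator of `K` -/

open Filter Topology Set MeasureTheory
open scoped RealInnerProductSpace ContDiff

universe u

namespace Pool.Agent.Helper38.SG

variable {G 𝔤 : Type u} [Group G] [TopologicalSpace G] [IsTopologicalGroup G] [T2Space G]
  [NormedAddCommGroup 𝔤] [InnerProductSpace ℝ 𝔤] [FiniteDimensional ℝ 𝔤] {P : ParData G 𝔤}
  {U : Type u} [NormedAddCommGroup U] [InnerProductSpace ℂ U] [FiniteDimensional ℂ U]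

/-- FCALC-B: `φ(Δ)` is symmetric -/
theorem pair_fc [MeasurableSpace P.K] [BorelSpace P.K] (μ : Measure P.K)
    [IsProbabilityMeasure μ] [μ.IsMulLeftInvariant] [μ.IsMulRightInvariant]
    (R : RepData P U) (φ : ℝ → ℝ) (h f : V R) :
    pair μ (fc R φ h : G → U) (f : G → U) = pair μ (h : G → U) (fc R φ f : G → U) :=
  Pool.Agent.Helper8.SG.pair_fc μ R φ h f

end Pool.Agent.Helper38.SG
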