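import Pool.Agent.Helper38.SG.FCalc

/-! # Sobolev gap, good norms -/

open Filter Topology Set MeasureTheory
open scoped RealInnerProductSpace ContDiff

universe u

namespace Pool.Agent.Helper38.SG

variable {G 𝔤 : Type u} [Group G] [TopologicalSpace G] [IsTopologicalGroup G] [T2Space G]
  [NormedAddCommGroup 𝔤] [InnerProductSpace ℝ 𝔤] [FiniteDimensional ℝ 𝔤] {P : ParData G 𝔤}
  {U : Type u} [NormedAddCommGroup U] [InnerProductSpace ℂ U] [FiniteDimensional ℂ U]
  [MeasurableSpace P.K] [BorelSpace P.K] (μ : Measure P.K)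

/-- the properties of a norm used in the iteration -/
structure GoodNorm (R : RepData P U) (p : V R → ℝ) : Prop where
  nonneg : ∀ f, 0 ≤ p f
  coef : ∀ ξ : V R, ∃ C : ℝ, ∀ (f : V R) (g : G),
    ‖pair μ (ξ : G → U) (lt g (f : G → U))‖ ≤ C * p f
  heat : ∃ C : ℝ, ∀ (u : ℝ), 0 < u → ∀ f, p (Pu R u f) ≤ C * p f

end Pool.Agent.Helper38.SG
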