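import Pool.Agent.Helper38.SG.FCalc
import Pool.Agent.Helper59.SG.Heat

/-! # Sobolev gap, piece HEATV (proof) -/

open Filter Topology Set MeasureTheory
open scoped RealInnerProductSpace ContDiff

universe u

namespace Pool.Agent.Helper38.SG.HV

open Pool.Agent.Helper38.SG

variable {G 𝔤 : Type u} [Group G] [TopologicalSpace G] [IsTopologicalGroup G] [T2Space G]
  [NormedAddCommGroup 𝔤] [InnerProductSpace ℝ 𝔤] [FiniteDimensional ℝ 𝔤] {P : ParData G 𝔤}
  {U : Type u} [NormedAddCommGroup U] [InnerProductSpace ℂ U] [FiniteDimensional ℂ U]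

/-- pointwise convergence in a finite dimensional subspace is convergence in every seminorm -/
theorem tendsto_seminorm {R : RepData P U} (N : Seminorm ℝ (V R)) (W : Submodule ℂ (V R))
    [FiniteDimensional ℂ W] {α : Type*} {l : Filter α} (w : α → V R) (hw : ∀ a, w a ∈ W)
    (h : ∀ x, Tendsto (fun a => (w a : G → U) x) l (𝓝 0)) :
    Tendsto (fun a => N (w a)) l (𝓝 0) := by
  classical
  -- the image of `W` in the space of functions
  let W' : Submodule ℝ (G → U) := (W.map (V R).subtype).restrictScalars ℝ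
  have hfd : FiniteDimensional ℝ W' := by
    have : FiniteDimensional ℂ (W.map (V R).subtype) := inferInstance
    exact Module.Finite.trans (R := ℝ) ℂ (W.map (V R).subtype)
  let b := Module.finBasis ℝ W'
  have hb : ∀ i, ∃ y : V R, (y : G → U) = (b i : G → U) := fun i => by
    obtain ⟨y, -, hy⟩ := (b i).2
    exact ⟨y, hy⟩
  choose y hy using hb
  have hmem : ∀ a, (w a : G → U) ∈ W' := fun a => ⟨w a, hw a, rfl⟩
  let w' : α → W' := fun a => ⟨w a, hmem a⟩
  have hw' : Tendsto w' l (𝓝 0) := by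
    rw [tendsto_subtype_rng]
    exact tendsto_pi_nhds.2 h
  have hsum : ∀ a, w a = ∑ i, b.repr (w' a) i • y i := by
    intro a
    apply Subtype.ext
    have h1 : (w' a : G → U) = ((∑ i, b.repr (w' a) i • b i : W') : G → U) := by
      rw [b.sum_repr]
    have h2 : ((∑ i, b.repr (w' a) i • y i : V R) : G → U) =
        ∑ i, b.repr (w' a) i • (y i : G → U) := by
      rw [AddSubmonoidClass.coe_finsetSum]; rfl
    rw [h2]
    change (w' a : G → U) = _
    rw [h1, AddSubmonoidClass.coe_finsetSum]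
    refine Finset.sum_congr rfl fun i _ => ?_
    rw [hy i]; rfl
  have hcoord : ∀ i, Tendsto (fun a => b.repr (w' a) i) l (𝓝 0) := by
    intro i
    have hc : Continuous (b.coord i) := LinearMap.continuous_of_finiteDimensional (b.coord i)
    have := (hc.tendsto 0).comp hw'
    rw [map_zero] at this
    exact this
  have hbound : ∀ a, N (w a) ≤ ∑ i, |b.repr (w' a) i| * N (y i) := by
    intro a
    conv_lhs => rw [hsum a]
    have hle : ∀ s : Finset (Fin (Module.finrank ℝ W')),
        N (∑ i ∈ s, b.repr (w' a) i • y i) ≤ ∑ i ∈ s, |b.repr (w' a) i| * N (y i) := by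
      intro s
      induction s using Finset.induction_on with
      | empty => simp
      | insert i s hi ih =>
        rw [Finset.sum_insert hi, Finset.sum_insert hi]
        refine (map_add_le_add N _ _).trans (add_le_add ?_ ih)
        rw [map_smul_eq_mul, Real.norm_eq_abs]
    exact hle _
  have hlim : Tendsto (fun a => ∑ i, |b.repr (w' a) i| * N (y i)) l (𝓝 0) := by
    have : Tendsto (fun a => ∑ i, |b.repr (w' a) i| * N (y i)) l
        (𝓝 (∑ i : Fin (Module.finrank ℝ W'), |(0 : ℝ)| * N (y i))) :=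
      tendsto_finsetSum _ fun i _ => ((hcoord i).abs).mul_const _
    simpa using this
  exact squeeze_zero (fun a => apply_nonneg N _) hbound hlim

/-- casV commutes with the Lie algebra of `K` -/
theorem casV_act {R : RepData P U} {Z : 𝔤} (hZ : Z ∈ P.𝔨) (f : V R) :
    casV R (act R Z f) = act R Z (casV R f) := by
  apply Subtype.ext
  rw [casV_coe, act_coe, act_coe, casV_coe]
  exact cas_lD f.2 hZ

theorem exists_stable {R : RepData P U} (f : V R) : ∃ W : Submodule ℂ (V R),
    FiniteDimensional ℂ W ∧ f ∈ W ∧ ∀ k, ∀ w ∈ W, kact R k w ∈ W := by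
  obtain ⟨W0, h1, h2, h3⟩ := f.2.2.2
  refine ⟨W0.comap (V R).subtype, ?_, h2, fun k w hw => h3 k k.2 _ hw⟩
  let φ : W0.comap (V R).subtype →ₗ[ℂ] W0 :=
    LinearMap.codRestrict W0 ((V R).subtype ∘ₗ (W0.comap (V R).subtype).subtype) fun w => w.2
  refine FiniteDimensional.of_injective φ fun a b hab => ?_
  apply Subtype.ext
  apply Subtype.ext
  exact congrArg (fun w : W0 => (w : G → U)) hab

theorem sum_act (R : RepData P U) (f : V R) :
    ∑ j, act R (stdOrthonormalBasis ℝ P.𝔨 j : 𝔤) (act R (stdOrthonormalBasis ℝ P.𝔨 j : 𝔤) f) =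
      -casV R f := by
  simp [casV]

theorem heat_V {R : RepData P U} (N : Seminorm ℝ (V R)) (hN : ∀ k f, N (kact R k f) ≤ N f)
    {u : ℝ} (hu : 0 < u) (f : V R) :
    N (Pu R u f) ≤ N f ∧
    ∀ i, N (act R (stdOrthonormalBasis ℝ P.𝔨 i : 𝔤) (Pu R u f)) ≤ (√(2 * u))⁻¹ * N f := by
  classical
  let z : Fin (Module.finrank ℝ P.𝔨) → P.𝔨 := fun i => stdOrthonormalBasis ℝ P.𝔨 i
  let kk : Fin (Module.finrank ℝ P.𝔨) → ℝ → P.K := fun i s =>
    ⟨P.exp ((s • z i : P.𝔨) : 𝔤), ParData.exp_mem (s • z i)⟩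
  let T : Fin (Module.finrank ℝ P.𝔨) → ℝ → V R →ₗ[ℝ] V R := fun i s =>
    (kact R (kk i s)).restrictScalars ℝ
  let Z : Fin (Module.finrank ℝ P.𝔨) → V R →ₗ[ℝ] V R := fun i =>
    (act R (z i : 𝔤)).restrictScalars ℝ
  obtain ⟨s, g, h0, h1, hf⟩ := casV_decomp f
  have hkk_add : ∀ i s t, kk i (s + t) = kk i s * kk i t := by
    intro i s t
    apply Subtype.ext
    exact P.exp_add_smul s t (z i : 𝔤)
  have hkk_zero : ∀ i, kk i 0 = 1 := by
    intro i
    apply Subtype.ext
    change P.exp (((0 : ℝ) • z i : P.𝔨) : 𝔤) = 1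
    rw [zero_smul]
    exact P.exp_zero
  have hTZ : ∀ i v, Tendsto (fun s : ℝ => N (s⁻¹ • (T i s v - v) - Z i v)) (𝓝[≠] 0) (𝓝 0) := by
    intro i v
    obtain ⟨W, hW1, hW2, hW3⟩ := exists_stable v
    refine tendsto_seminorm N (W ⊔ Submodule.span ℂ {Z i v}) _ (fun s => ?_) fun x => ?_
    · refine sub_mem ?_ (Submodule.mem_sup_right (Submodule.subset_span rfl))
      refine Submodule.mem_sup_left ?_
      have : s⁻¹ • (T i s v - v) = ((s⁻¹ : ℝ) : ℂ) • (T i s v - v) := rfl
      rw [this]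
      exact W.smul_mem _ (sub_mem (hW3 _ _ hW2) hW2)
    · have hd := P.hasDerivAt_lD (smooth_of_mem_V v.2) (z i : 𝔤) x 0
      have hd' := hd.tendsto_slope_zero
      simp only [zero_smul, neg_zero, P.exp_zero, one_mul, zero_add] at hd'
      have h2 : Tendsto (fun s : ℝ => s⁻¹ • ((v : G → U) (P.exp (-(s • (z i : 𝔤))) * x) -
          (v : G → U) x) - P.lD (z i : 𝔤) (v : G → U) x) (𝓝[≠] 0) (𝓝 0) := by
        have := hd'.sub_const (P.lD (z i : 𝔤) (v : G → U) x)
        rwa [sub_self] at this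
      refine h2.congr fun s => ?_
      have e1 : ((s⁻¹ • (T i s v - v) - Z i v : V R) : G → U) x =
          s⁻¹ • ((T i s v : G → U) x - (v : G → U) x) - (Z i v : G → U) x := rfl
      have e2 : (T i s v : G → U) x = (v : G → U) (P.exp (-(s • (z i : 𝔤))) * x) := by
        change lt _ (v : G → U) x = _
        simp only [lt]
        rw [P.exp_neg]
        rfl
      rw [e1, e2]
      rfl
  have key := Pool.Agent.Helper59.SG.heat N T Z (fun i s v => hN _ _) hTZ
    (fun i s t v => by
      change kact R (kk i (s + t)) v = kact R (kk i s) (kact R (kk i t) v)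
      rw [hkk_add, map_mul]; rfl)
    (fun i v => by
      change kact R (kk i 0) v = v
      rw [hkk_zero, map_one]; rfl)
    (fun i v => by
      change ∑ j, act R (z j : 𝔤) (act R (z j : 𝔤) (act R (z i : 𝔤) v)) =
        act R (z i : 𝔤) (∑ j, act R (z j : 𝔤) (act R (z j : 𝔤) v))
      rw [sum_act, sum_act, map_neg, casV_act (z i).2])
    s g id (fun a ha => by
      change ∑ j, act R (z j : 𝔤) (act R (z j : 𝔤) (g a)) = -a • g a
      rw [sum_act, h1 a ha]
      have : (-a) • g a = ((-a : ℝ) : ℂ) • g a := rfl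
      rw [this, Complex.ofReal_neg]; exact (neg_smul (a : ℂ) (g a)).symm) hu
  have hPu : Pu R u f = ∑ a ∈ s, Real.exp (-u * id a) • g a := by
    conv_lhs => rw [hf]
    rw [map_sum]
    refine Finset.sum_congr rfl fun a ha => ?_
    rw [Pu_apply R u (h1 a ha)]
    have : Real.exp (-u * id a) • g a = ((Real.exp (-u * id a) : ℝ) : ℂ) • g a := rfl
    rw [this]; congr 3; simp
  rw [hPu]
  refine ⟨?_, fun i => ?_⟩
  · have := key.1
    rwa [← hf] at this
  · have := key.2 i
    rw [← hf] at this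
    exact this

end Pool.Agent.Helper38.SG.HV
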