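import Mathlib
import Pool.Agent.Helper38.SG.HeatVProof

/-! # Sobolev gap, piece HEATV: heat bounds for `K`-invariant seminorms on `V` -/

open Filter Topology Set MeasureTheory
open scoped RealInnerProductSpace ContDiff

universe u

namespace Pool.Agent.Helper38.SG

variable {G 𝔤 : Type u} [Group G] [TopologicalSpace G] [IsTopologicalGroup G] [T2Space G]
  [NormedAddCommGroup 𝔤] [InnerProductSpace ℝ 𝔤] [FiniteDimensional ℝ 𝔤] {P : ParData G 𝔤}
  {U : Type u} [NormedAddCommGroup U] [InnerProductSpace ℂ U] [FiniteDimensional ℂ U]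

/-- HEATV -/
theorem heat_V {R : RepData P U} (N : Seminorm ℝ (V R)) (hN : ∀ k f, N (kact R k f) ≤ N f)
    {u : ℝ} (hu : 0 < u) (f : V R) :
    N (Pu R u f) ≤ N f ∧
    ∀ i, N (act R (stdOrthonormalBasis ℝ P.𝔨 i : 𝔤) (Pu R u f)) ≤ (√(2 * u))⁻¹ * N f :=
  HV.heat_V N hN hu f

end Pool.Agent.Helper38.SG
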