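import Mathlib
import Pool.Agent.Helper44.SG.GNorm

/-! # Sobolev gap, piece GNORM: properties of norms in `Norm(V)` and their duals -/

open Filter Topology Set MeasureTheory
open scoped RealInnerProductSpace ContDiff

universe u

namespace Pool.Agent.Helper38.SG

variable {G 𝔤 : Type u} [Group G] [TopologicalSpace G] [IsTopologicalGroup G] [T2Space G]
  [NormedAddCommGroup 𝔤] [InnerProductSpace ℝ 𝔤] [FiniteDimensional ℝ 𝔤] {P : ParData G 𝔤}
  {U : Type u} [NormedAddCommGroup U] [InnerProductSpace ℂ U] [FiniteDimensional ℂ U]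
  [MeasurableSpace P.K] [BorelSpace P.K] (μ : Measure P.K) [IsProbabilityMeasure μ]
  [μ.IsMulLeftInvariant] [μ.IsMulRightInvariant] [μ.IsInvInvariant] [μ.IsOpenPosMeasure]

/-- GNORM-A -/
theorem IsGNorm.good {R : RepData P U} {p : V R → ℝ} (hp : IsGNorm R p) : GoodNorm μ R p :=
  Pool.Agent.Helper44.SG.IsGNorm.good μ hp

/-- GNORM-B: the dual norm -/
theorem IsGNorm.dual {R : RepData P U} {p : V R → ℝ} (hp : IsGNorm R p) :
    ∃ p' : V R → ℝ, GoodNorm μ R p' ∧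
      (∀ h f : V R, ‖pair μ (h : G → U) (f : G → U)‖ ≤ p' h * p f) ∧
      ∃ C : ℝ, 0 ≤ C ∧ ∀ (w : V R) (ε : ℝ), 0 < ε → ∃ h : V R, p' h ≤ C ∧
        p w ≤ ‖pair μ (h : G → U) (w : G → U)‖ + ε :=
  Pool.Agent.Helper44.SG.IsGNorm.dual μ hp

end Pool.Agent.Helper38.SG
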