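import Mathlib
import Pool.Agent.Helper54.SG.Haar

/-! # Sobolev gap, piece HAAR -/

open Filter Topology Set MeasureTheory
open scoped RealInnerProductSpace ContDiff

universe u

namespace Pool.Agent.Helper38.SG

/-- HAAR: invariant probability measure on a compact group. -/
theorem exists_haar (K : Type*) [Group K] [TopologicalSpace K] [IsTopologicalGroup K]
    [CompactSpace K] [T2Space K] [MeasurableSpace K] [BorelSpace K] :
    ∃ μ : Measure K, IsProbabilityMeasure μ ∧ μ.IsMulLeftInvariant ∧ μ.IsMulRightInvariant ∧
      μ.IsInvInvariant ∧ μ.IsOpenPosMeasure :=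
  Pool.Agent.Helper54.SG.exists_haar K

end Pool.Agent.Helper38.SG
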