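import Mathlib
import Pool.Agent.Helper71.SG.Fin

/-! # Sobolev gap, piece FIN: the main estimate -/

open Filter Topology Set MeasureTheory
open scoped RealInnerProductSpace ContDiff

universe u

namespace Pool.Agent.Helper38.SG

variable {G 𝔤 : Type u} [Group G] [TopologicalSpace G] [IsTopologicalGroup G] [T2Space G]
  [NormedAddCommGroup 𝔤] [InnerProductSpace ℝ 𝔤] [FiniteDimensional ℝ 𝔤] {P : ParData G 𝔤}
  {U : Type u} [NormedAddCommGroup U] [InnerProductSpace ℂ U] [FiniteDimensional ℂ U]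

/-- FIN-A: `p(P_u w) ≤ C max(1, u^{-c}) q(w)` -/
theorem heat_bound {R : RepData P U} {p q : V R → ℝ} (hp : IsGNorm R p) (hq : IsGNorm R q) :
    ∃ C : ℝ, 0 ≤ C ∧ ∀ (w : V R) (u : ℝ), 0 < u →
      p (Pu R u w) ≤ C * (1 + u ^ (-P.c)) * q w :=
  Pool.Agent.Helper71.SG.heat_bound hp hq

/-- FIN-B: integration over `u` -/
theorem main_estimate {R : RepData P U} {p q : V R → ℝ} (hp : IsGNorm R p) (hq : IsGNorm R q)
    {s : ℝ} (hs : 2 * P.c < s) :
    ∃ C : ℝ, ∀ f, p f ≤ C * q (fc R (fun μ => (1 + μ) ^ (s / 2)) f) :=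
  Pool.Agent.Helper71.SG.main_estimate hp hq hs

end Pool.Agent.Helper38.SG
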