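import Mathlib
import Pool.Agent.Helper8.SG.InvA

/-! # Sobolev gap, piece INV-A: translation of integrals over `K`, the invariant pairing -/

open Filter Topology Set MeasureTheory
open scoped RealInnerProductSpace ContDiff

universe u

namespace Pool.Agent.Helper38.SG

variable {G 𝔤 : Type u} [Group G] [TopologicalSpace G] [IsTopologicalGroup G] [T2Space G]
  [NormedAddCommGroup 𝔤] [InnerProductSpace ℝ 𝔤] [FiniteDimensional ℝ 𝔤] {P : ParData G 𝔤}
  [MeasurableSpace P.K] [BorelSpace P.K] (μ : Measure P.K) [IsProbabilityMeasure μ]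
  [μ.IsMulLeftInvariant] [μ.IsMulRightInvariant]

/-- INV-A -/
theorem integral_translate (Φ : G → ℂ) (hΦ : P.Smooth Φ)
    (hA : ∀ x, ∀ H ∈ P.𝔞, Φ (x * P.exp H) = Real.exp (-(2 * P.ρ H)) • Φ x)
    (hN : ∀ x, ∀ X ∈ P.𝔫, Φ (x * P.exp X) = Φ x) (g : G) :
    ∫ k : P.K, Φ (g * k) ∂μ = ∫ k : P.K, Φ k ∂μ :=
  Pool.Agent.Helper8.SG.integral_translate μ Φ hΦ hA hN g

end Pool.Agent.Helper38.SG
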