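import Pool.Agent.Helper38.SG.Fin

/-! # Sobolev gap: main theorem -/

open Filter Topology Set MeasureTheory
open scoped RealInnerProductSpace ContDiff

universe u

namespace Pool.Agent.Helper38.SG

/-- For the unitary minimal principal series of a real reductive group, every norm in
`Norm(V)` is dominated by every Sobolev norm of order `s > 2 c_𝔤` of every other one; so the
Sobolev gap is at most `2 c_𝔤`. -/
theorem main {G 𝔤 U : Type u} [Group G] [TopologicalSpace G] [IsTopologicalGroup G] [T2Space G]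
    [NormedAddCommGroup 𝔤] [InnerProductSpace ℝ 𝔤] [FiniteDimensional ℝ 𝔤]
    [NormedAddCommGroup U] [InnerProductSpace ℂ U] [FiniteDimensional ℂ U]
    (P : ParData G 𝔤) (R : RepData P U) :
    (∀ s : ℝ, ∃! D : V R →ₗ[ℂ] V R, IsSob s D) ∧
    (∀ p q : V R → ℝ, IsGNorm R p → IsGNorm R q → ∀ s : ℝ, 2 * P.c < s →
      ∀ D : V R →ₗ[ℂ] V R, IsSob s D → ∃ C : ℝ, ∀ f, p f ≤ C * q (D f)) ∧
    (∀ pmin pmax : V R → ℝ, IsGNorm R pmin → IsGNorm R pmax →
      (∀ p, IsGNorm R p → ∃ C : ℝ, ∀ f, pmin f ≤ C * p f) →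
      (∀ p, IsGNorm R p → ∃ C : ℝ, ∀ f, p f ≤ C * pmax f) →
      gap R pmin pmax ≤ 2 * P.c) := by
  have h1 : ∀ s : ℝ, ∃! D : V R →ₗ[ℂ] V R, IsSob s D := fun s =>
    ⟨_, (isSob_iff R s _).2 rfl, fun D hD => (isSob_iff R s D).1 hD⟩
  have h2 : ∀ p q : V R → ℝ, IsGNorm R p → IsGNorm R q → ∀ s : ℝ, 2 * P.c < s →
      ∀ D : V R →ₗ[ℂ] V R, IsSob s D → ∃ C : ℝ, ∀ f, p f ≤ C * q (D f) := by
    intro p q hp hq s hs D hD
    rw [(isSob_iff R s D).1 hD]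
    exact main_estimate hp hq hs
  refine ⟨h1, h2, fun pmin pmax hmin hmax _ _ => ?_⟩
  have hc : 0 ≤ P.c := P.c_nonneg P.br_self P.jacobi
  refine le_of_forall_pos_le_add fun ε hε => csInf_le ⟨0, fun x hx => hx.1.le⟩ ⟨by linarith, ?_⟩
  obtain ⟨D, hD, -⟩ := h1 (2 * P.c + ε)
  exact ⟨D, hD, h2 _ _ hmax hmin _ (by linarith) D hD⟩

end Pool.Agent.Helper38.SG
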