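import Mathlib
import Pool.Agent.Helper44.SG.RepA

/-! # Sobolev gap, piece REP -/

open Filter Topology Set MeasureTheory
open scoped RealInnerProductSpace ContDiff

universe u

namespace Pool.Agent.Helper38.SG

/-- REP: a continuous finite dimensional representation of `K` has a linear differential. -/
theorem exists_dRep {G 𝔤 : Type u} [Group G] [TopologicalSpace G] [IsTopologicalGroup G]
    [NormedAddCommGroup 𝔤] [InnerProductSpace ℝ 𝔤] [FiniteDimensional ℝ 𝔤] (P : ParData G 𝔤)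
    {W : Type*} [NormedAddCommGroup W] [NormedSpace ℂ W] [FiniteDimensional ℂ W]
    (π : P.K →* (W →ₗ[ℂ] W)) (hπ : ∀ w, Continuous fun k => π k w) :
    ∃ A : P.𝔨 →ₗ[ℝ] (W →L[ℂ] W), ∀ (Z : P.𝔨) (w : W),
      π ⟨P.exp Z, ParData.exp_mem Z⟩ w = NormedSpace.exp (A Z) w :=
  Pool.Agent.Helper44.SG.exists_dRep P π hπ

end Pool.Agent.Helper38.SG
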