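import Mathlib
import Pool.Agent.Helper65.SG.SmoA

/-! # Sobolev gap, piece SMO-A: smoothness of `K`-finite induced functions -/

open Filter Topology Set
open scoped RealInnerProductSpace ContDiff

universe u

namespace Pool.Agent.Helper38.SG

variable {G 𝔤 : Type u} [Group G] [TopologicalSpace G] [IsTopologicalGroup G] [T2Space G]
  [NormedAddCommGroup 𝔤] [InnerProductSpace ℝ 𝔤] [FiniteDimensional ℝ 𝔤] {P : ParData G 𝔤}

/-- SMO-A:continuous `K`-finite functions transforming by a character under `A` and invariant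
under `N` are smooth. -/
theorem smooth_of_kfinite {F : Type*} [NormedAddCommGroup F] [NormedSpace ℂ F]
    [FiniteDimensional ℂ F] (f : G → F) (hf : Continuous f) (hK : KFinite P f)
    (χ : 𝔤 →ₗ[ℝ] ℂ) (hA : ∀ x, ∀ H ∈ P.𝔞, f (x * P.exp H) = Complex.exp (χ H) • f x)
    (hN : ∀ x, ∀ X ∈ P.𝔫, f (x * P.exp X) = f x) : P.Smooth f :=
  Pool.Agent.Helper65.SG.smooth_of_kfinite f hf hK χ hA hN

end Pool.Agent.Helper38.SG
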